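import Mathlib
import Pool.Agent.Helper472.Lat_Chars

set_option autoImplicit false
set_option linter.unusedSectionVars false

open Filter Topology Finset MeasureTheory
open scoped ComplexConjugate

namespace Pool.Agent.K1H25.BT

universe u v w

variable {K : Type v} [CommGroup K] [TopologicalSpace K]

/-- a character as a complex valued function -/
noncomputable def cc (χ : PontryaginDual K) (x : K) : ℂ := ((χ x : Circle) : ℂ)

theorem cc_one (x : K) : cc (1 : PontryaginDual K) x = 1 := by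
  simp [cc]

theorem cc_mul (χ ψ : PontryaginDual K) (x : K) : cc (χ * ψ) x = cc χ x * cc ψ x := rfl

theorem cc_prod {ι : Type*} (s : Finset ι) (f : ι → PontryaginDual K) (x : K) :
    cc (∏ i ∈ s, f i) x = ∏ i ∈ s, cc (f i) x := by
  classical
  induction s using Finset.induction_on with
  | empty => simp [cc_one]
  | insert a s ha ih => rw [Finset.prod_insert ha, Finset.prod_insert ha, cc_mul, ih]

theorem cc_map_mul (χ : PontryaginDual K) (x y : K) : cc χ (x * y) = cc χ x * cc χ y := by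
  simp [cc]

theorem cc_map_one (χ : PontryaginDual K) : cc χ 1 = 1 := by
  simp [cc]

theorem norm_cc (χ : PontryaginDual K) (x : K) : ‖cc χ x‖ = 1 := Circle.norm_coe _

theorem cc_mul_conj (χ : PontryaginDual K) (x : K) : cc χ x * conj (cc χ x) = 1 := by
  rw [Complex.mul_conj, Complex.normSq_eq_norm_sq, norm_cc]
  simp

theorem cc_map_inv (χ : PontryaginDual K) (x : K) : cc χ x⁻¹ = conj (cc χ x) := by
  have h1 : cc χ x⁻¹ * cc χ x = 1 := by
    rw [← cc_map_mul, inv_mul_cancel, cc_map_one]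
  have h2 := cc_mul_conj χ x
  have h3 : cc χ x ≠ 0 := by
    intro h; rw [h, zero_mul] at h2; exact zero_ne_one h2
  apply mul_right_cancel₀ h3
  rw [h1, mul_comm, h2]

theorem cc_inv (χ : PontryaginDual K) (x : K) : cc χ⁻¹ x = conj (cc χ x) := by
  have h1 : cc χ⁻¹ x * cc χ x = 1 := by
    rw [← cc_mul, inv_mul_cancel, cc_one]
  have h2 := cc_mul_conj χ x
  have h3 : cc χ x ≠ 0 := by
    intro h; rw [h, zero_mul] at h2; exact zero_ne_one h2
  apply mul_right_cancel₀ h3
  rw [h1, mul_comm, h2]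

theorem cont_cc (χ : PontryaginDual K) : Continuous (cc χ) :=
  continuous_induced_dom.comp (map_continuous χ)

theorem exists_ne (χ : PontryaginDual K) (h : χ ≠ 1) : ∃ x, cc χ x ≠ 1 := by
  by_contra hc
  push Not at hc
  apply h
  apply PontryaginDual.ext
  intro a
  apply Subtype.ext
  rw [PontryaginDual.one_apply]
  exact hc a

variable [IsTopologicalGroup K] [CompactSpace K] [T2Space K] [MeasurableSpace K] [BorelSpace K]
  (μ : Measure K) [IsProbabilityMeasure μ] [μ.IsMulLeftInvariant]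

theorem integrable_cont {E : Type*} [NormedAddCommGroup E] [SecondCountableTopologyEither K E]
    {f : K → E} (hf : Continuous f) : Integrable f μ :=
  hf.integrable_of_hasCompactSupport (HasCompactSupport.of_compactSpace _)

omit [T2Space K] in
theorem integral_cc_ne (χ : PontryaginDual K) (h : χ ≠ 1) : ∫ x, cc χ x ∂μ = 0 := by
  obtain ⟨a, ha⟩ := exists_ne χ h
  have h1 : ∫ x, cc χ (a * x) ∂μ = ∫ x, cc χ x ∂μ := integral_mul_left_eq_self _ a
  simp only [cc_map_mul] at h1
  rw [integral_const_mul] at h1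
  have h2 : (cc χ a - 1) * ∫ x, cc χ x ∂μ = 0 := by
    rw [sub_mul, h1, one_mul, sub_self]
  rcases mul_eq_zero.1 h2 with h3 | h3
  · exact absurd (sub_eq_zero.1 h3) ha
  · exact h3

omit [T2Space K] in
theorem integral_cc_mul_conj [DecidableEq (PontryaginDual K)] (χ ψ : PontryaginDual K) :
    ∫ x, cc χ x * conj (cc ψ x) ∂μ = if χ = ψ then 1 else 0 := by
  split_ifs with h
  · rw [h]
    simp only [cc_mul_conj]
    simp
  · have h1 : ∀ x, cc χ x * conj (cc ψ x) = cc (χ * ψ⁻¹) x := fun x => by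
      rw [cc_mul, cc_inv]
    simp only [h1]
    apply integral_cc_ne
    intro h2
    exact h (mul_inv_eq_one.1 h2)

include μ in
/-- Continuous functions uniformly close to distinct characters are linearly independent. -/
theorem linInd (T : Finset (PontryaginDual K)) (P : T → K → ℂ) (hP : ∀ ψ, Continuous (P ψ))
    (err : ℝ) (herr : ∀ (ψ : T) (x : K), ‖P ψ x - cc ψ.1 x‖ ≤ err) (hT : T.card * err < 1) :
    LinearIndependent ℂ P := by
  classical
  rw [Fintype.linearIndependent_iff]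
  intro a ha
  have hint : ∀ (ψ ψ₀ : T), Integrable (fun x => P ψ x * conj (cc ψ₀.1 x)) μ := fun ψ ψ₀ =>
    integrable_cont μ ((hP ψ).mul (Complex.continuous_conj.comp (cont_cc _)))
  have h1 : ∀ ψ₀ : T, ‖a ψ₀‖ ≤ err * ∑ ψ, ‖a ψ‖ := by
    intro ψ₀
    have h2 : ∑ ψ, a ψ * ∫ x, P ψ x * conj (cc ψ₀.1 x) ∂μ = 0 := by
      have h3 : ∫ x, (∑ ψ, a ψ • P ψ) x * conj (cc ψ₀.1 x) ∂μ = 0 := by
        rw [ha]; simp
      rw [← h3]
      simp only [← integral_const_mul]
      rw [← integral_finsetSum _ (fun ψ _ => (hint ψ ψ₀).const_mul _)]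
      congr 1
      funext x
      simp only [Finset.sum_apply, Pi.smul_apply, smul_eq_mul, Finset.sum_mul]
      exact Finset.sum_congr rfl fun ψ _ => by ring
    have h4 : ∀ ψ : T, ∫ x, P ψ x * conj (cc ψ₀.1 x) ∂μ =
        (if ψ = ψ₀ then 1 else 0) + ∫ x, (P ψ x - cc ψ.1 x) * conj (cc ψ₀.1 x) ∂μ := by
      intro ψ
      have h5 : (if ψ = ψ₀ then (1 : ℂ) else 0) = ∫ x, cc ψ.1 x * conj (cc ψ₀.1 x) ∂μ := by
        rw [integral_cc_mul_conj]
        by_cases h : ψ = ψ₀
        · simp [h]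
        · rw [if_neg h, if_neg]
          intro h'; exact h (Subtype.ext h')
      rw [h5, ← integral_add]
      · congr 1; funext x; ring
      · exact integrable_cont μ ((cont_cc _).mul (Complex.continuous_conj.comp (cont_cc _)))
      · exact integrable_cont μ (((hP ψ).sub (cont_cc _)).mul
          (Complex.continuous_conj.comp (cont_cc _)))
    simp only [h4, mul_add, Finset.sum_add_distrib] at h2
    simp only [mul_ite, mul_one, mul_zero, Finset.sum_ite_eq', Finset.mem_univ, if_true] at h2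
    have h6 : a ψ₀ = -∑ ψ, a ψ * ∫ x, (P ψ x - cc ψ.1 x) * conj (cc ψ₀.1 x) ∂μ :=
      eq_neg_of_add_eq_zero_left h2
    rw [h6, norm_neg, Finset.mul_sum]
    refine (norm_sum_le _ _).trans (Finset.sum_le_sum fun ψ _ => ?_)
    rw [norm_mul, mul_comm]
    refine mul_le_mul_of_nonneg_right ?_ (norm_nonneg _)
    have h7 := norm_integral_le_of_norm_le_const (μ := μ)
      (f := fun x => (P ψ x - cc ψ.1 x) * conj (cc ψ₀.1 x)) (C := err)
      (Filter.Eventually.of_forall fun x => by
        rw [norm_mul, RCLike.norm_conj, norm_cc, mul_one]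
        exact herr ψ x)
    simpa using h7
  have h8 : ∑ ψ, ‖a ψ‖ ≤ (T.card * err) * ∑ ψ, ‖a ψ‖ := by
    refine (Finset.sum_le_sum fun ψ _ => h1 ψ).trans ?_
    rw [Finset.sum_const, nsmul_eq_mul, Finset.card_univ, Fintype.card_coe, mul_assoc]
  have h9 : 0 ≤ ∑ ψ, ‖a ψ‖ := Finset.sum_nonneg fun _ _ => norm_nonneg _
  have h10 : ∑ ψ, ‖a ψ‖ = 0 := by
    by_contra hne
    have : 0 < ∑ ψ, ‖a ψ‖ := lt_of_le_of_ne h9 (Ne.symm hne)
    nlinarith
  intro ψ
  have h11 := (Finset.sum_eq_zero_iff_of_nonneg fun ψ _ => norm_nonneg (a ψ)).1 h10 ψ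
    (Finset.mem_univ _)
  exact norm_eq_zero.1 h11

/-- The mean square of a sum of characters with repetitions. -/
theorem integral_sq {C : Type*} [Fintype C] (Ψ : C → PontryaginDual K)
    (T : Finset (PontryaginDual K)) (hT : ∀ c, Ψ c ∈ T) :
    (Fintype.card C : ℝ) ^ 2 ≤ T.card * ∫ x, ‖∑ c, cc (Ψ c) x‖ ^ 2 ∂μ := by
  classical
  have h1 : ∫ x, ‖∑ c, cc (Ψ c) x‖ ^ 2 ∂μ =
      ∑ ψ ∈ T, ((univ.filter fun c => Ψ c = ψ).card : ℝ) ^ 2 := by
    have h2 : ∀ x, (((‖∑ c, cc (Ψ c) x‖ ^ 2 : ℝ)) : ℂ) =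
        ∑ c, ∑ c', cc (Ψ c) x * conj (cc (Ψ c') x) := by
      intro x
      rw [Complex.ofReal_pow, ← Complex.mul_conj', map_sum, Finset.sum_mul_sum]
    have h3 : ((∫ x, ‖∑ c, cc (Ψ c) x‖ ^ 2 ∂μ : ℝ) : ℂ) =
        ∑ c, ∑ c', if Ψ c = Ψ c' then (1 : ℂ) else 0 := by
      rw [← integral_complex_ofReal]
      simp only [h2]
      have hi : ∀ c c', Integrable (fun x => cc (Ψ c) x * conj (cc (Ψ c') x)) μ := fun c c' =>
        integrable_cont μ ((cont_cc _).mul (Complex.continuous_conj.comp (cont_cc _)))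
      rw [integral_finsetSum _ (fun c _ => integrable_finsetSum _ fun c' _ => hi c c')]
      refine Finset.sum_congr rfl fun c _ => ?_
      rw [integral_finsetSum _ (fun c' _ => hi c c')]
      exact Finset.sum_congr rfl fun c' _ => integral_cc_mul_conj μ _ _
    have h4 : (∑ c, ∑ c', if Ψ c = Ψ c' then (1 : ℂ) else 0) =
        ((∑ ψ ∈ T, ((univ.filter fun c => Ψ c = ψ).card : ℝ) ^ 2 : ℝ) : ℂ) := by
      have h5 : ∀ c, (∑ c', if Ψ c = Ψ c' then (1 : ℂ) else 0) =
          ((univ.filter fun c' => Ψ c' = Ψ c).card : ℂ) := by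
        intro c
        rw [Finset.sum_boole]
        congr 2
        ext c'
        simp [eq_comm]
      simp only [h5]
      rw [← Finset.sum_fiberwise_of_maps_to (s := univ) (t := T) (g := Ψ) (fun c _ => hT c)]
      push_cast
      refine Finset.sum_congr rfl fun ψ _ => ?_
      rw [Finset.sum_congr rfl (g := fun _ => ((univ.filter fun c' => Ψ c' = ψ).card : ℂ))]
      · rw [Finset.sum_const, nsmul_eq_mul, sq]
      · intro c hc
        rw [(Finset.mem_filter.1 hc).2]
    rw [h4] at h3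
    exact_mod_cast h3
  rw [h1]
  have h6 : (Fintype.card C : ℝ) = ∑ ψ ∈ T, ((univ.filter fun c => Ψ c = ψ).card : ℝ) := by
    have := Finset.card_eq_sum_card_fiberwise (s := (univ : Finset C)) (t := T) (f := Ψ)
      (fun c _ => hT c)
    rw [← Finset.card_univ, this]
    push_cast
    rfl
  rw [h6]
  exact sq_sum_le_card_mul_sum_sq

end Pool.Agent.K1H25.BT
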