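import Mathlib

set_option autoImplicit false

open Filter Topology Finset

namespace Pool.Agent.K1H25.BT

universe u v

/-- number of elements of the support of a map to `Option J` -/
def supp {A J : Type*} [Fintype A] (g : A → Option J) : ℕ :=
  (univ.filter fun a => (g a).isSome).card

theorem count_le {A J : Type*} [Fintype A] [DecidableEq A] [Fintype J] (t : ℝ) (ht : 0 < t)
    (ht1 : t ≤ 1) (q : ℝ) :
    ((univ.filter fun g : A → Option J => (supp g : ℝ) ≤ q).card : ℝ) ≤
      t ^ (-q) * (1 + Fintype.card J * t) ^ Fintype.card A := by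
  classical
  have h1 : ∑ g : A → Option J, t ^ supp g = (1 + Fintype.card J * t) ^ Fintype.card A := by
    have h2 : ∀ g : A → Option J, t ^ supp g = ∏ a, (if (g a).isSome then t else 1) := by
      intro g
      rw [Finset.prod_ite]
      simp [supp]
    simp only [h2]
    have h3 := (Finset.prod_univ_sum (fun _ : A => (Finset.univ : Finset (Option J)))
      (fun _ o => if o.isSome then t else (1 : ℝ))).symm
    rw [Fintype.piFinset_univ] at h3
    rw [h3]
    simp [Fintype.sum_option, Finset.prod_const, Finset.card_univ]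
  have h4 : ((univ.filter fun g : A → Option J => (supp g : ℝ) ≤ q).card : ℝ) * t ^ q ≤
      ∑ g : A → Option J, t ^ supp g := by
    rw [← nsmul_eq_mul, ← Finset.sum_const]
    refine (Finset.sum_le_sum ?_).trans (Finset.sum_le_sum_of_subset_of_nonneg
      (Finset.filter_subset _ _) fun g _ _ => by positivity)
    intro g hg
    have h5 : (supp g : ℝ) ≤ q := (Finset.mem_filter.1 hg).2
    rw [← Real.rpow_natCast]
    exact Real.rpow_le_rpow_of_exponent_ge ht ht1 h5
  rw [h1] at h4
  rw [Real.rpow_neg ht.le, inv_mul_eq_div, le_div_iff₀ (by positivity)]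
  exact h4

/-- There is a small proportion `κ` such that the number of maps with support of proportion at most
`κ` is small. -/
theorem exists_small (c : ℕ) (η : ℝ) (hη : 0 < η) :
    ∃ κ : ℝ, 0 < κ ∧ κ ≤ 1 ∧ ∀ (A : Type u) (J : Type v) [Fintype A] [DecidableEq A] [Fintype J],
      Fintype.card J = c →
      ((univ.filter fun g : A → Option J => (supp g : ℝ) ≤ κ * Fintype.card A).card : ℝ) ≤
        Real.exp (η * Fintype.card A) := by
  have h1 : Tendsto (fun κ : ℝ => Real.log (1 + c * κ) - κ * Real.log κ) (𝓝[>] 0) (𝓝 0) := by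
    have h2 : Tendsto (fun κ : ℝ => Real.log (1 + c * κ)) (𝓝[>] 0) (𝓝 0) := by
      have h3 : ContinuousAt (fun κ : ℝ => Real.log (1 + c * κ)) 0 := by
        apply ContinuousAt.log
        · fun_prop
        · simp
      have h4 := h3.tendsto
      simp only [mul_zero, add_zero, Real.log_one] at h4
      exact h4.mono_left nhdsWithin_le_nhds
    have h5 : Tendsto (fun κ : ℝ => κ * Real.log κ) (𝓝[>] 0) (𝓝 0) := by
      have h6 := Real.continuous_mul_log.tendsto 0
      simp only [zero_mul] at h6
      exact h6.mono_left nhdsWithin_le_nhds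
    simpa using h2.sub h5
  have h7 : ∀ᶠ κ : ℝ in 𝓝[>] 0, Real.log (1 + c * κ) - κ * Real.log κ < η :=
    h1.eventually_lt_const hη
  have h8 : ∀ᶠ κ : ℝ in 𝓝[>] 0, κ ∈ Set.Ioo (0 : ℝ) 1 := Ioo_mem_nhdsGT one_pos
  obtain ⟨κ, h9, h10, h11⟩ := (h7.and h8).exists
  refine ⟨κ, h10, h11.le, ?_⟩
  intro A J _ _ _ hJ
  refine (count_le κ h10 h11.le _).trans ?_
  have h12 : (0 : ℝ) < 1 + Fintype.card J * κ := by positivity
  rw [← Real.exp_log h12, ← Real.exp_nat_mul, Real.rpow_def_of_pos h10, ← Real.exp_add, hJ]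
  apply Real.exp_le_exp.2
  have h13 : (0 : ℝ) ≤ Fintype.card A := by positivity
  nlinarith

end Pool.Agent.K1H25.BT
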