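import Mathlib

set_option autoImplicit false

/-!
# Topological entropy and algebraic entropy of the dual for actions of monoids on compact abelian
groups

The compact abelian group `K` is written multiplicatively; `PontryaginDual K` is the group of its
continuous characters with values in the unit circle.
-/

open Filter Topology

namespace Pool.Agent.K1H25.BT

universe u v w

/-- A left action `γ` of the monoid `S` on the compact group `K` by continuous endomorphisms:
`γ(1) = id` and `γ(s t) = γ(s) γ(t)`. -/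
structure EndoAction (S : Type u) [Monoid S] (K : Type v) [CommGroup K] [TopologicalSpace K] where
  /-- the continuous endomorphism given by an element of the monoid -/
  act : S → (K →ₜ* K)
  act_one : ∀ x : K, act 1 x = x
  act_mul : ∀ (s t : S) (x : K), act (s * t) x = act s (act t x)

/-- `𝒰` is a finite open cover of `K`. -/
structure IsFinOpenCover {K : Type v} [TopologicalSpace K] (𝒰 : Set (Set K)) : Prop where
  finite : 𝒰.Finite
  isOpen : ∀ U ∈ 𝒰, IsOpen U
  cover : ⋃₀ 𝒰 = Set.univ

/-- `N(𝒰)`: the least number of members of the cover `𝒰` which still cover `K`. -/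
noncomputable def minCover {K : Type v} (𝒰 : Set (Set K)) : ℕ :=
  sInf {n | ∃ 𝒱 : Finset (Set K), (∀ V ∈ 𝒱, V ∈ 𝒰) ∧ (∀ x : K, ∃ V ∈ 𝒱, x ∈ V) ∧ 𝒱.card = n}

section

variable {S : Type u} [Monoid S] {K : Type v} [CommGroup K] [TopologicalSpace K]

/-- `𝒰_F = ⋁_{s ∈ F} γ(s)⁻¹(𝒰)`: all the intersections `⋂_{s ∈ F} γ(s)⁻¹(U_s)` with `U_s ∈ 𝒰`. -/
def joinCover (γ : EndoAction S K) (𝒰 : Set (Set K)) (F : Finset S) : Set (Set K) :=
  {V | ∃ U : S → Set K, (∀ s ∈ F, U s ∈ 𝒰) ∧ V = {x | ∀ s ∈ F, γ.act s x ∈ U s}}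

/-- The dual action (a right action) of `S` on the characters: `χ · s = χ ∘ γ(s)`. -/
noncomputable def dualAct (γ : EndoAction S K) (χ : PontryaginDual K) (s : S) :
    PontryaginDual K :=
  PontryaginDual.map (γ.act s) χ

/-- The trajectory `T_F(X) = ∑_{s ∈ F} X · s` (in multiplicative notation a product): all the
characters `∏_{s ∈ F} χ_s · s` with `χ_s ∈ X`. -/
def trajectory (γ : EndoAction S K) (X : Finset (PontryaginDual K)) (F : Finset S) :
    Set (PontryaginDual K) :=
  {ψ | ∃ χ : S → PontryaginDual K, (∀ s ∈ F, χ s ∈ X) ∧ ψ = ∏ s ∈ F, dualAct γ (χ s) s}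

/-- `log N(𝒰_F) / |F|` -/
noncomputable def topRate (γ : EndoAction S K) (𝒰 : Set (Set K)) (F : Finset S) : ℝ :=
  Real.log (minCover (joinCover γ 𝒰 F)) / F.card

/-- `log |T_F(X)| / |F|` -/
noncomputable def algRate (γ : EndoAction S K) (X : Finset (PontryaginDual K)) (F : Finset S) : ℝ :=
  Real.log (trajectory γ X F).ncard / F.card

end

end Pool.Agent.K1H25.BT
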