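import Pool.Agent.K1H25.BT.Top
import Pool.Agent.K1H25.BT.Count

set_option autoImplicit false
set_option linter.unusedSectionVars false

open Filter Topology Finset MeasureTheory
open scoped ComplexConjugate

namespace Pool.Agent.K1H25.BT

universe u v w

section

variable {K : Type v} [CommGroup K] [TopologicalSpace K]
  [IsTopologicalGroup K] [CompactSpace K]

/-- Characters define the neighbourhoods of `1`. -/
theorem exists_char_nhds [T2Space K] {W : Set K} (hW : W ∈ 𝓝 (1 : K)) :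
    ∃ (X : Finset (PontryaginDual K)) (ε : ℝ), 0 < ε ∧ ε ≤ 1 ∧
      ∀ y : K, (∀ χ ∈ X, ‖cc χ y - 1‖ < ε) → y ∈ W := by
  classical
  have h1 : ∀ y : K, y ∉ interior W → ∃ χ : PontryaginDual K, cc χ y ≠ 1 := by
    intro y hy
    have hy1 : y ≠ 1 := by
      rintro rfl
      exact hy (mem_interior_iff_mem_nhds.2 hW)
    obtain ⟨χ, hχ⟩ := Pool.LatH472.chars y hy1
    refine ⟨χ, fun h => hχ ?_⟩
    exact Subtype.ext h
  choose! χ hχ using h1
  have hcomp : IsCompact (interior W)ᶜ := isOpen_interior.isClosed_compl.isCompact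
  obtain ⟨t, ht1, ht2⟩ := hcomp.elim_nhds_subcover
    (fun y => {z | ‖cc (χ y) y - 1‖ / 2 < ‖cc (χ y) z - 1‖}) (by
      intro y hy
      apply (isOpen_lt continuous_const ((cont_cc (χ y)).sub continuous_const).norm).mem_nhds
      have : 0 < ‖cc (χ y) y - 1‖ := norm_pos_iff.2 (sub_ne_zero.2 (hχ y hy))
      change ‖cc (χ y) y - 1‖ / 2 < ‖cc (χ y) y - 1‖
      linarith)
  by_cases hne : t.Nonempty
  · obtain ⟨y₀, hy₀, hmin⟩ := t.exists_min_image (fun y => ‖cc (χ y) y - 1‖ / 2) hne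
    refine ⟨t.image χ, min 1 (‖cc (χ y₀) y₀ - 1‖ / 2), ?_, min_le_left _ _, ?_⟩
    · have : 0 < ‖cc (χ y₀) y₀ - 1‖ := norm_pos_iff.2 (sub_ne_zero.2 (hχ y₀ (ht1 _ hy₀)))
      exact lt_min one_pos (by linarith)
    · intro z hz
      by_contra hzW
      have hz2 : z ∈ (interior W)ᶜ := fun h => hzW (interior_subset h)
      obtain ⟨y, hy, hzy⟩ := Set.mem_iUnion₂.1 (ht2 hz2)
      have h3 := hz (χ y) (Finset.mem_image_of_mem _ hy)
      have h4 := hmin y hy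
      have h5 : ‖cc (χ y) y - 1‖ / 2 < ‖cc (χ y) z - 1‖ := hzy
      have h6 := min_le_right 1 (‖cc (χ y₀) y₀ - 1‖ / 2)
      linarith
  · refine ⟨∅, 1, one_pos, le_rfl, ?_⟩
    intro z _
    by_contra hzW
    have hz2 : z ∈ (interior W)ᶜ := fun h => hzW (interior_subset h)
    obtain ⟨y, hy, _⟩ := Set.mem_iUnion₂.1 (ht2 hz2)
    exact hne ⟨y, hy⟩

/-- Lebesgue number of an open cover -/
theorem exists_lebesgue {𝒰 : Set (Set K)} (h : IsFinOpenCover 𝒰) :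
    ∃ W ∈ 𝓝 (1 : K), ∀ x : K, ∃ U ∈ 𝒰, ∀ y : K, x⁻¹ * y ∈ W → y ∈ U := by
  classical
  have h1 : ∀ x : K, ∃ U ∈ 𝒰, ∃ N ∈ 𝓝 (1 : K), ∀ v ∈ N, ∀ w ∈ N, x * (v * w) ∈ U := by
    intro x
    have hx : x ∈ ⋃₀ 𝒰 := by rw [h.cover]; exact Set.mem_univ x
    obtain ⟨U, hU, hxU⟩ := hx
    refine ⟨U, hU, ?_⟩
    have h2 : (fun y => x * y) ⁻¹' U ∈ 𝓝 (1 : K) := by
      apply ((h.isOpen U hU).preimage (continuous_const.mul continuous_id)).mem_nhds
      simpa using hxU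
    obtain ⟨N, hN, hN2⟩ := exists_nhds_one_split h2
    exact ⟨N, hN, fun v hv w hw => hN2 v hv w hw⟩
  choose U hU N hN hN2 using h1
  obtain ⟨t, -, ht⟩ := isCompact_univ.elim_nhds_subcover
    (fun x : K => (fun y => x⁻¹ * y) ⁻¹' interior (N x)) (fun x _ => by
      apply (isOpen_interior.preimage (continuous_const.mul continuous_id)).mem_nhds
      simpa using mem_interior_iff_mem_nhds.2 (hN x))
  refine ⟨⋂ x ∈ t, N x, (Filter.biInter_finset_mem t).2 fun x _ => hN x, ?_⟩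
  intro x
  obtain ⟨z, hz, hxz⟩ := Set.mem_iUnion₂.1 (ht (Set.mem_univ x))
  refine ⟨U z, hU z, fun y hy => ?_⟩
  have h3 := hN2 z (z⁻¹ * x) (interior_subset hxz) (x⁻¹ * y) (Set.mem_iInter₂.1 hy z hz)
  rwa [mul_assoc, mul_inv_cancel_left, mul_inv_cancel_left] at h3

theorem norm_one_add {z : ℂ} (hz : ‖z‖ = 1) {ε : ℝ} (hε : 0 ≤ ε) (hε1 : ε ≤ 1)
    (h : ε ≤ ‖z - 1‖) : ‖1 + z‖ ≤ 2 - ε ^ 2 / 4 := by
  have h1 : ‖1 + z‖ ^ 2 + ‖z - 1‖ ^ 2 = 4 := by
    have h2 := parallelogram_law_with_norm ℝ z (1 : ℂ)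
    rw [norm_one, hz] at h2
    rw [add_comm (1 : ℂ) z]
    nlinarith
  have h3 : ‖1 + z‖ ^ 2 ≤ (2 - ε ^ 2 / 4) ^ 2 := by nlinarith [sq_nonneg (ε ^ 2)]
  have h4 : 0 ≤ 2 - ε ^ 2 / 4 := by nlinarith
  exact (sq_le_sq₀ (norm_nonneg _) h4).1 h3

/-- The trigonometric polynomial `∑_{χ ∈ X} χ` -/
noncomputable def ker (X : Finset (PontryaginDual K)) (y : K) : ℂ := ∑ χ ∈ X, cc χ y

theorem ker_le (X : Finset (PontryaginDual K)) (y : K) : ‖ker X y‖ ≤ X.card := by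
  refine (norm_sum_le _ _).trans ?_
  simp [norm_cc]

theorem ker_small (X : Finset (PontryaginDual K)) (h1 : (1 : PontryaginDual K) ∈ X) {ε : ℝ}
    (hε : 0 < ε) (hε1 : ε ≤ 1) (y : K) (χ : PontryaginDual K) (hχ : χ ∈ X)
    (h : ε ≤ ‖cc χ y - 1‖) : ‖ker X y‖ ≤ X.card - ε ^ 2 / 4 := by
  classical
  have hne : χ ≠ 1 := by
    rintro rfl
    rw [cc_one] at h
    simp at h
    linarith
  have hχ' : χ ∈ X.erase 1 := Finset.mem_erase.2 ⟨hne, hχ⟩
  have h2 : ker X y = (1 + cc χ y) + ∑ ψ ∈ (X.erase 1).erase χ, cc ψ y := by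
    unfold ker
    rw [← Finset.add_sum_erase X _ h1, ← Finset.add_sum_erase (X.erase 1) _ hχ', cc_one]
    ring
  rw [h2]
  refine (norm_add_le _ _).trans ?_
  have h3 := norm_one_add (norm_cc χ y) hε.le hε1 h
  have h4 : ‖∑ ψ ∈ (X.erase 1).erase χ, cc ψ y‖ ≤ (X.card : ℝ) - 2 := by
    refine (norm_sum_le _ _).trans ?_
    simp only [norm_cc, Finset.sum_const, nsmul_eq_mul, mul_one]
    have h5 := Finset.card_erase_add_one hχ'
    have h6 := Finset.card_erase_add_one h1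
    have h7 : ((X.erase 1).erase χ).card + 2 = X.card := by omega
    have h8 : ((((X.erase 1).erase χ).card : ℕ) : ℝ) + 2 = X.card := by exact_mod_cast h7
    linarith
  linarith

end

end Pool.Agent.K1H25.BT
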