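import Pool.Agent.K1H25.BT.Dir1

set_option autoImplicit false
set_option linter.unusedSectionVars false

open Filter Topology Finset MeasureTheory
open scoped ComplexConjugate

namespace Pool.Agent.K1H25.BT

universe u v w

section

variable {S : Type u} [Monoid S] {K : Type v} [CommGroup K] [TopologicalSpace K]
  [IsTopologicalGroup K] [CompactSpace K] [MeasurableSpace K] [BorelSpace K]

/-- the Bowen neighbourhood `{x : γ(s) x ∈ V for all s ∈ F}` -/
def bowen (γ : EndoAction S K) (F : Finset S) (V : Set K) : Set K := {x | ∀ s ∈ F, γ.act s x ∈ V}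

theorem bowen_open (γ : EndoAction S K) (F : Finset S) {V : Set K} (hV : IsOpen V) :
    IsOpen (bowen γ F V) := by
  have : bowen γ F V = ⋂ s ∈ F, (γ.act s) ⁻¹' V := by
    ext x; simp [bowen]
  rw [this]
  exact isOpen_biInter_finset fun s _ => hV.preimage (map_continuous _)

/-- Packing: `N(𝒰_F) μ(V_F) ≤ 1`. -/
theorem packing (γ : EndoAction S K) (F : Finset S) (μ : Measure K) [IsProbabilityMeasure μ]
    [μ.IsMulLeftInvariant] {𝒰 : Set (Set K)} {W V : Set K}
    (hW : ∀ x : K, ∃ U ∈ 𝒰, ∀ y : K, x⁻¹ * y ∈ W → y ∈ U) (hVo : IsOpen V)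
    (hV : ∀ v ∈ V, ∀ w ∈ V, v / w ∈ W) (hpos : 0 < μ.real (bowen γ F V)) :
    (minCover (joinCover γ 𝒰 F) : ℝ) * μ.real (bowen γ F V) ≤ 1 := by
  classical
  have hBm : MeasurableSet (bowen γ F V) := (bowen_open γ F hVo).measurableSet
  -- families with pairwise disjoint translates
  let Good : Finset K → Prop := fun Y => (Y : Set K).PairwiseDisjoint
    fun y => (fun x => y⁻¹ * x) ⁻¹' bowen γ F V
  have hbound : ∀ Y, Good Y → (Y.card : ℝ) * μ.real (bowen γ F V) ≤ 1 := by
    intro Y hY
    have h1 : μ.real (⋃ y ∈ Y, (fun x => y⁻¹ * x) ⁻¹' bowen γ F V) =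
        ∑ y ∈ Y, μ.real ((fun x => y⁻¹ * x) ⁻¹' bowen γ F V) := by
      apply measureReal_biUnion_finset hY
      intro y _
      exact hBm.preimage (measurable_const_mul _)
    have h2 : ∀ y ∈ Y, μ.real ((fun x => y⁻¹ * x) ⁻¹' bowen γ F V) = μ.real (bowen γ F V) := by
      intro y _
      unfold Measure.real
      rw [measure_preimage_mul]
    rw [Finset.sum_congr rfl h2, Finset.sum_const, nsmul_eq_mul] at h1
    rw [← h1]
    exact measureReal_le_one
  -- a family of maximal cardinality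
  obtain ⟨Y, hY, hmax⟩ : ∃ Y, Good Y ∧ ∀ Y', Good Y' → Y'.card ≤ Y.card := by
    obtain ⟨B, hB⟩ := exists_nat_gt (1 / μ.real (bowen γ F V))
    have h3 : ∀ Y, Good Y → Y.card ≤ B := by
      intro Y hY
      have h4 := hbound Y hY
      rw [← le_div_iff₀ hpos] at h4
      exact_mod_cast h4.trans hB.le
    have h5 : ∃ n, ∃ Y, Good Y ∧ Y.card = n := ⟨0, ∅, by simp [Good], rfl⟩
    have h6 : ∀ n, (∃ Y, Good Y ∧ Y.card = n) → n ≤ B := by
      rintro n ⟨Y, hY, rfl⟩; exact h3 Y hY
    obtain ⟨Y, hY, hYc⟩ := Nat.findGreatest_spec (P := fun n => ∃ Y, Good Y ∧ Y.card = n)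
      (h6 _ h5.choose_spec) h5.choose_spec
    refine ⟨Y, hY, fun Y' hY' => ?_⟩
    rw [hYc]
    exact Nat.le_findGreatest (h3 Y' hY') ⟨Y', hY', rfl⟩
  choose U hU hWU using hW
  let Z : K → Set K := fun y => {x | ∀ s ∈ F, γ.act s x ∈ U (γ.act s y)}
  have hcov : ∀ x : K, ∃ V' ∈ Y.image Z, x ∈ V' := by
    intro x
    by_contra hx
    push Not at hx
    have hx2 : ∀ y ∈ Y, Disjoint ((fun z => y⁻¹ * z) ⁻¹' bowen γ F V)
        ((fun z => x⁻¹ * z) ⁻¹' bowen γ F V) := by
      intro y hy
      rw [Set.disjoint_left]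
      intro z hz1 hz2
      apply hx (Z y) (Finset.mem_image_of_mem _ hy)
      intro s hs
      apply hWU
      have h7 := hV _ (hz1 s hs) _ (hz2 s hs)
      have h8 : γ.act s (y⁻¹ * z) / γ.act s (x⁻¹ * z) = (γ.act s y)⁻¹ * γ.act s x := by
        rw [← map_div, ← map_inv, ← map_mul]
        congr 1
        rw [div_eq_mul_inv, mul_inv, inv_inv, mul_comm x, mul_assoc, mul_inv_cancel_left]
      rwa [h8] at h7
    have hxY : x ∉ Y := by
      intro hxY
      have h9 := hx2 x hxY
      have h10 : bowen γ F V = ∅ := by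
        rw [disjoint_self] at h9
        rw [Set.eq_empty_iff_forall_notMem]
        intro z hz
        have : x * z ∈ (fun z => x⁻¹ * z) ⁻¹' bowen γ F V := by
          change x⁻¹ * (x * z) ∈ bowen γ F V
          rwa [inv_mul_cancel_left]
        have h11 : (fun z => x⁻¹ * z) ⁻¹' bowen γ F V = ∅ := h9
        rw [h11] at this
        exact this
      rw [h10] at hpos
      simp at hpos
    have h12 : Good (insert x Y) := by
      change ((insert x Y : Finset K) : Set K).PairwiseDisjoint _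
      rw [Finset.coe_insert, Set.pairwiseDisjoint_insert_of_notMem (by simpa using hxY)]
      exact ⟨hY, fun y hy => (hx2 y hy).symm⟩
    have h13 := hmax _ h12
    rw [Finset.card_insert_of_notMem hxY] at h13
    omega
  have h14 : minCover (joinCover γ 𝒰 F) ≤ Y.card := by
    refine (minCover_le (Y.image Z) ?_ hcov).trans Finset.card_image_le
    intro V' hV'
    obtain ⟨y, _, rfl⟩ := Finset.mem_image.1 hV'
    exact ⟨fun s => U (γ.act s y), fun s _ => hU _, rfl⟩
  refine le_trans ?_ (hbound Y hY)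
  exact mul_le_mul_of_nonneg_right (by exact_mod_cast h14) hpos.le

end

end Pool.Agent.K1H25.BT
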