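import Pool.Agent.K1H25.BT.Dir1b

set_option autoImplicit false
set_option linter.unusedSectionVars false

open Filter Topology Finset MeasureTheory
open scoped ComplexConjugate

namespace Pool.Agent.K1H25.BT

universe u v w

section

variable {S : Type u} [Monoid S] {K : Type v} [CommGroup K] [TopologicalSpace K]
  [IsTopologicalGroup K] [CompactSpace K] [T2Space K]

/-- the characters `∏_j χ_j` with `χ_0, …, χ_{m-1} ∈ X` -/
noncomputable def powSet [DecidableEq (PontryaginDual K)] (X : Finset (PontryaginDual K)) (m : ℕ) :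
    Finset (PontryaginDual K) :=
  univ.image fun t : Fin m → X => ∏ j, (t j).1

theorem sum_pow_ker (X : Finset (PontryaginDual K)) (m : ℕ) (y : K) :
    ∑ t : Fin m → X, cc (∏ j, (t j).1) y = ker X y ^ m := by
  classical
  simp only [cc_prod]
  have h := Finset.prod_univ_sum (fun _ : Fin m => (Finset.univ : Finset X))
    (fun _ χ => cc χ.1 y)
  rw [Fintype.piFinset_univ] at h
  rw [← h, Finset.prod_const, Finset.card_univ, Fintype.card_fin]
  congr 1
  exact Finset.sum_coe_sort X (fun χ => cc χ y)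

theorem meas_bound [DecidableEq S] [MeasurableSpace K] [BorelSpace K] (γ : EndoAction S K) (F : Finset S)
    (μ : Measure K) [IsProbabilityMeasure μ] [μ.IsMulLeftInvariant]
    [DecidableEq (PontryaginDual K)]
    (X : Finset (PontryaginDual K)) (hX1 : (1 : PontryaginDual K) ∈ X) (m : ℕ)
    (W V : Set K) (hWo : IsOpen W) (hVo : IsOpen V) (hWV : ∀ v ∈ W, ∀ w ∈ W, v / w ∈ V)
    (t : Finset K) (ht : ∀ y : K, ∃ j ∈ t, j⁻¹ * y ∈ W)
    (ρ : ℝ) (hρ0 : 0 < ρ) (hρ1 : ρ ≤ 1) (hρ : ∀ y, y ∉ W → ‖ker X y‖ ≤ ρ * X.card)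
    (κ : ℝ) :
    1 ≤ ((trajectory γ (powSet X m) F).ncard : ℝ) *
      (((univ.filter fun g : F → Option t => (supp g : ℝ) ≤ κ * Fintype.card F).card : ℝ) *
        μ.real (bowen γ F V) + ρ ^ (2 * m * κ * F.card)) := by
  classical
  let n := F.card
  have hn : Fintype.card F = n := Fintype.card_coe F
  have hXpos : (0 : ℝ) < X.card := by
    exact_mod_cast Finset.card_pos.2 ⟨1, hX1⟩
  let T : Finset (PontryaginDual K) := (traj_finite γ (powSet X m) F).toFinset
  let C := F → (Fin m → X)
  let Ψ : C → PontryaginDual K := fun c => ∏ a : F, dualAct γ (∏ j, (c a j).1) a.1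
  have hΨ : ∀ c, Ψ c ∈ T := by
    intro c
    rw [Set.Finite.mem_toFinset]
    refine ⟨fun s => if h : s ∈ F then ∏ j, (c ⟨s, h⟩ j).1 else 1, ?_, ?_⟩
    · intro s hs
      simp only [dif_pos hs]
      exact Finset.mem_image_of_mem _ (Finset.mem_univ _)
    · have h1 := Finset.prod_coe_sort F (fun s => dualAct γ
        ((fun s => if h : s ∈ F then ∏ j, (c ⟨s, h⟩ j).1 else 1) s) s)
      rw [← h1]
      refine Finset.prod_congr rfl fun a _ => ?_
      simp only [dif_pos a.2]
  have hsum : ∀ x, ∑ c, cc (Ψ c) x = ∏ a : F, ker X (γ.act a.1 x) ^ m := by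
    intro x
    have h2 : ∀ c : C, cc (Ψ c) x = ∏ a : F, cc (∏ j, (c a j).1) (γ.act a.1 x) := by
      intro c
      rw [cc_prod]
      rfl
    simp only [h2]
    have h := Finset.prod_univ_sum (fun _ : F => (Finset.univ : Finset (Fin m → X)))
      (fun a t => cc (∏ j, (t j).1) (γ.act a.1 x))
    rw [Fintype.piFinset_univ] at h
    rw [← h]
    refine Finset.prod_congr rfl fun a _ => ?_
    exact sum_pow_ker X m _
  have hcardC : (Fintype.card C : ℝ) = ((X.card : ℝ) ^ m) ^ n := by
    simp only [C, Fintype.card_pi, Fintype.card_fin, Finset.prod_const, Finset.card_univ,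
      Fintype.card_coe, Nat.cast_pow]
    rfl
  have hmain := integral_sq μ Ψ T hΨ
  simp only [hsum] at hmain
  -- the sets P_g
  let G : Finset (F → Option t) := univ.filter fun g => (supp g : ℝ) ≤ κ * Fintype.card F
  let Pg : (F → Option t) → Set K := fun g => {x | ∀ a : F, match g a with
    | none => γ.act a.1 x ∈ W
    | some j => j.1⁻¹ * γ.act a.1 x ∈ W}
  have hPo : ∀ g, IsOpen (Pg g) := by
    intro g
    have : Pg g = ⋂ a : F, {x | match g a with
      | none => γ.act a.1 x ∈ W
      | some j => j.1⁻¹ * γ.act a.1 x ∈ W} := by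
      ext x; simp [Pg]
    rw [this]
    refine isOpen_iInter_of_finite fun a => ?_
    cases h : g a with
    | none => exact hWo.preimage (map_continuous _)
    | some j => exact hWo.preimage (continuous_const.mul (map_continuous _))
  have hPm : ∀ g, μ.real (Pg g) ≤ μ.real (bowen γ F V) := by
    intro g
    by_cases hne : (Pg g).Nonempty
    · obtain ⟨x₀, hx₀⟩ := hne
      have h3 : Pg g ⊆ (fun x => x₀⁻¹ * x) ⁻¹' bowen γ F V := by
        intro x hx s hs
        have h4 := hx ⟨s, hs⟩
        have h5 := hx₀ ⟨s, hs⟩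
        have h8 : γ.act s (x₀⁻¹ * x) = γ.act s x / γ.act s x₀ := by
          rw [← map_div, div_eq_mul_inv, mul_comm]
        rw [h8]
        cases h : g ⟨s, hs⟩ with
        | none =>
          simp only [h] at h4 h5
          exact hWV _ h4 _ h5
        | some j =>
          simp only [h] at h4 h5
          have := hWV _ h4 _ h5
          rwa [mul_div_mul_left_eq_div] at this
      refine (measureReal_mono h3).trans ?_
      unfold Measure.real
      rw [measure_preimage_mul]
    · rw [Set.not_nonempty_iff_eq_empty.1 hne]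
      simp
  -- pointwise bound
  have hpt : ∀ x, ‖∏ a : F, ker X (γ.act a.1 x) ^ m‖ ^ 2 ≤ (((X.card : ℝ) ^ m) ^ n) ^ 2 *
      (∑ g ∈ G, (Pg g).indicator (fun _ => (1 : ℝ)) x + ρ ^ (2 * m * κ * n)) := by
    intro x
    have hle1 : ‖∏ a : F, ker X (γ.act a.1 x) ^ m‖ ≤ ((X.card : ℝ) ^ m) ^ n := by
      rw [norm_prod, ← hn, ← Finset.card_univ, ← Finset.prod_const]
      refine Finset.prod_le_prod (fun _ _ => norm_nonneg _) fun a _ => ?_
      rw [norm_pow]
      exact pow_le_pow_left₀ (norm_nonneg _) (ker_le X _) m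
    have hrp : 0 ≤ ρ ^ (2 * m * κ * n) := Real.rpow_nonneg hρ0.le _
    by_cases hbad : ((univ.filter fun a : F => γ.act a.1 x ∉ W).card : ℝ) ≤ κ * Fintype.card F
    · -- x lies in some P_g
      have hch : ∀ y : K, ∃ j : t, j.1⁻¹ * y ∈ W := fun y => by
        obtain ⟨j, hj, hy⟩ := ht y
        exact ⟨⟨j, hj⟩, hy⟩
      choose jj hjj using hch
      let g : F → Option t := fun a => if γ.act a.1 x ∈ W then none else some (jj (γ.act a.1 x))
      have hgG : g ∈ G := by
        refine Finset.mem_filter.2 ⟨Finset.mem_univ _, ?_⟩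
        have : supp g = (univ.filter fun a : F => γ.act a.1 x ∉ W).card := by
          unfold supp
          congr 1
          ext a
          by_cases ha : γ.act a.1 x ∈ W <;> simp [g, ha]
        rw [this]
        exact hbad
      have hxg : x ∈ Pg g := by
        intro a
        by_cases ha : γ.act a.1 x ∈ W
        · simp only [g, if_pos ha]
          exact ha
        · simp only [g, if_neg ha]
          exact hjj _
      have h6 : 1 ≤ ∑ g ∈ G, (Pg g).indicator (fun _ => (1 : ℝ)) x := by
        have h7 := Finset.single_le_sum (f := fun g => (Pg g).indicator (fun _ => (1 : ℝ)) x)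
          (fun g _ => Set.indicator_nonneg (fun _ _ => zero_le_one) _) hgG
        refine le_trans ?_ h7
        change 1 ≤ (Pg g).indicator (fun _ => (1 : ℝ)) x
        rw [Set.indicator_of_mem hxg]
      calc ‖∏ a : F, ker X (γ.act a.1 x) ^ m‖ ^ 2 ≤ (((X.card : ℝ) ^ m) ^ n) ^ 2 * 1 := by
            rw [mul_one]
            exact pow_le_pow_left₀ (norm_nonneg _) hle1 2
        _ ≤ _ := mul_le_mul_of_nonneg_left (by linarith) (by positivity)
    · push Not at hbad
      have hle2 : ‖∏ a : F, ker X (γ.act a.1 x) ^ m‖ ≤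
          ((X.card : ℝ) ^ m) ^ n * (ρ ^ m) ^ (univ.filter fun a : F => γ.act a.1 x ∉ W).card := by
        rw [norm_prod]
        have h8 : ((X.card : ℝ) ^ m) ^ n * (ρ ^ m) ^
            (univ.filter fun a : F => γ.act a.1 x ∉ W).card =
            ∏ a : F, ((X.card : ℝ) ^ m * if γ.act a.1 x ∉ W then ρ ^ m else 1) := by
          rw [Finset.prod_mul_distrib, Finset.prod_const, Finset.card_univ, hn,
            Finset.prod_ite, Finset.prod_const, Finset.prod_const_one, mul_one]
        rw [h8]
        refine Finset.prod_le_prod (fun _ _ => norm_nonneg _) fun a _ => ?_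
        rw [norm_pow]
        by_cases ha : γ.act a.1 x ∈ W
        · rw [if_neg (not_not.2 ha), mul_one]
          exact pow_le_pow_left₀ (norm_nonneg _) (ker_le X _) m
        · rw [if_pos ha, ← mul_pow, mul_comm]
          exact pow_le_pow_left₀ (norm_nonneg _) (hρ _ ha) m
      have h9 : ((ρ ^ m) ^ (univ.filter fun a : F => γ.act a.1 x ∉ W).card) ^ 2 ≤
          ρ ^ (2 * m * κ * n) := by
        rw [← pow_mul, ← pow_mul, ← Real.rpow_natCast]
        apply Real.rpow_le_rpow_of_exponent_ge hρ0 hρ1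
        push_cast
        rw [hn] at hbad
        have hm : (0 : ℝ) ≤ m := by positivity
        nlinarith
      have h10 : 0 ≤ ∑ g ∈ G, (Pg g).indicator (fun _ => (1 : ℝ)) x :=
        Finset.sum_nonneg fun g _ => Set.indicator_nonneg (fun _ _ => zero_le_one) _
      calc ‖∏ a : F, ker X (γ.act a.1 x) ^ m‖ ^ 2 ≤ (((X.card : ℝ) ^ m) ^ n *
            (ρ ^ m) ^ (univ.filter fun a : F => γ.act a.1 x ∉ W).card) ^ 2 :=
            pow_le_pow_left₀ (norm_nonneg _) hle2 2
        _ = (((X.card : ℝ) ^ m) ^ n) ^ 2 *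
            ((ρ ^ m) ^ (univ.filter fun a : F => γ.act a.1 x ∉ W).card) ^ 2 := by rw [mul_pow]
        _ ≤ _ := mul_le_mul_of_nonneg_left (by linarith) (by positivity)
  -- integrate
  have hint : ∫ x, ‖∏ a : F, ker X (γ.act a.1 x) ^ m‖ ^ 2 ∂μ ≤ (((X.card : ℝ) ^ m) ^ n) ^ 2 *
      (G.card * μ.real (bowen γ F V) + ρ ^ (2 * m * κ * n)) := by
    have hi1 : ∀ g, Integrable ((Pg g).indicator (fun _ => (1 : ℝ))) μ := fun g =>
      (integrable_const _).indicator (hPo g).measurableSet
    have hi2 : Integrable (fun x => ∑ g ∈ G, (Pg g).indicator (fun _ => (1 : ℝ)) x) μ :=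
      integrable_finsetSum _ fun g _ => hi1 g
    have hcont : Continuous fun x => ‖∏ a : F, ker X (γ.act a.1 x) ^ m‖ ^ 2 := by
      refine (Continuous.norm ?_).pow 2
      refine continuous_finsetProd _ fun a _ => Continuous.pow ?_ m
      have : Continuous (ker X : K → ℂ) := continuous_finsetSum _ fun χ _ => cont_cc χ
      exact this.comp (map_continuous _)
    have h11 : ∫ x, ‖∏ a : F, ker X (γ.act a.1 x) ^ m‖ ^ 2 ∂μ ≤
        ∫ x, (((X.card : ℝ) ^ m) ^ n) ^ 2 *
      (∑ g ∈ G, (Pg g).indicator (fun _ => (1 : ℝ)) x + ρ ^ (2 * m * κ * n)) ∂μ := by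
      refine integral_mono (integrable_cont μ hcont) ?_ hpt
      exact (hi2.add (integrable_const _)).const_mul _
    refine h11.trans ?_
    rw [integral_const_mul, integral_add hi2 (integrable_const _),
      integral_finsetSum _ (fun g _ => hi1 g)]
    refine mul_le_mul_of_nonneg_left ?_ (by positivity)
    simp only [integral_const, probReal_univ, smul_eq_mul, one_mul]
    refine add_le_add_left ?_ _
    have h12 : ∀ g ∈ G, ∫ x, (Pg g).indicator (fun _ => (1 : ℝ)) x ∂μ ≤ μ.real (bowen γ F V) := by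
      intro g _
      rw [integral_indicator (hPo g).measurableSet, setIntegral_const, smul_eq_mul, mul_one]
      exact hPm g
    refine (Finset.sum_le_sum h12).trans ?_
    rw [Finset.sum_const, nsmul_eq_mul]
  have hTc : (T.card : ℝ) = (trajectory γ (powSet X m) F).ncard := by
    rw [Set.ncard_eq_toFinset_card _ (traj_finite γ (powSet X m) F)]
  rw [hcardC] at hmain
  have hpos2 : 0 < (((X.card : ℝ) ^ m) ^ n) ^ 2 := by positivity
  have h13 : (((X.card : ℝ) ^ m) ^ n) ^ 2 * 1 ≤ (((X.card : ℝ) ^ m) ^ n) ^ 2 * (T.card *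
      (G.card * μ.real (bowen γ F V) + ρ ^ (2 * m * κ * n))) := by
    rw [mul_one]
    refine hmain.trans ?_
    have := mul_le_mul_of_nonneg_left hint (by positivity : (0 : ℝ) ≤ T.card)
    linarith
  have h14 := le_of_mul_le_mul_left h13 hpos2
  rw [hTc] at h14
  exact h14

end

end Pool.Agent.K1H25.BT
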