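import Pool.Agent.K1H25.BT.Dir1c

set_option autoImplicit false
set_option linter.unusedSectionVars false

open Filter Topology Finset MeasureTheory
open scoped ComplexConjugate

namespace Pool.Agent.K1H25.BT

universe u v w

section

variable {S : Type u} [Monoid S] {K : Type v} [CommGroup K] [TopologicalSpace K]
  [IsTopologicalGroup K] [CompactSpace K] [T2Space K]

theorem core1 (γ : EndoAction S K) {𝒰 : Set (Set K)} (h𝒰 : IsFinOpenCover 𝒰) (a η : ℝ)
    (ha : 0 ≤ a) (hη : 0 < η) :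
    ∃ X : Finset (PontryaginDual K), ∀ F : Finset S, F.Nonempty →
      ((trajectory γ X F).ncard : ℝ) ≤ Real.exp ((a + η) * F.card) →
      (minCover (joinCover γ 𝒰 F) : ℝ) ≤ Real.exp ((a + 3 * η) * F.card) := by
  classical
  let _ : MeasurableSpace K := borel K
  have _ : BorelSpace K := ⟨rfl⟩
  let μ : Measure K := Measure.haarMeasure ⊤
  have _ : IsProbabilityMeasure μ := ⟨by
    have := Measure.haarMeasure_self (K₀ := (⊤ : TopologicalSpace.PositiveCompacts K))
    simpa using this⟩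
  obtain ⟨W₁, hW₁, hLeb⟩ := exists_lebesgue h𝒰
  obtain ⟨V₁, hV₁, hVW₁⟩ := exists_nhds_split_inv hW₁
  have hVo : IsOpen (interior V₁) := isOpen_interior
  have hVn : interior V₁ ∈ 𝓝 (1 : K) := interior_mem_nhds.2 hV₁
  obtain ⟨W₂, hW₂, hWV⟩ := exists_nhds_split_inv hVn
  have hWo : IsOpen (interior W₂) := isOpen_interior
  have hWn : interior W₂ ∈ 𝓝 (1 : K) := interior_mem_nhds.2 hW₂
  obtain ⟨X₀, ε, hε0, hε1, hX₀⟩ := exists_char_nhds hWn
  let X₁ : Finset (PontryaginDual K) := insert 1 X₀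
  have h1X : (1 : PontryaginDual K) ∈ X₁ := Finset.mem_insert_self _ _
  have hc1 : (1 : ℝ) ≤ X₁.card := by exact_mod_cast Finset.card_pos.2 ⟨1, h1X⟩
  -- the constant ρ
  let ρ : ℝ := 1 - ε ^ 2 / (4 * X₁.card)
  have hfrac : 0 < ε ^ 2 / (4 * X₁.card) := by positivity
  have hfrac2 : ε ^ 2 / (4 * X₁.card) < 1 := by
    rw [div_lt_one (by positivity)]
    nlinarith
  have hρ0 : 0 < ρ := by simp only [ρ]; linarith
  have hρ1 : ρ < 1 := by simp only [ρ]; linarith
  have hρ : ∀ y, y ∉ interior W₂ → ‖ker X₁ y‖ ≤ ρ * X₁.card := by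
    intro y hy
    have h1 : ∃ χ ∈ X₀, ε ≤ ‖cc χ y - 1‖ := by
      by_contra hcon
      push Not at hcon
      exact hy (hX₀ y hcon)
    obtain ⟨χ, hχ, hχ2⟩ := h1
    have h2 := ker_small X₁ h1X hε0 hε1 y χ (Finset.mem_insert_of_mem hχ) hχ2
    have h3 : ρ * X₁.card = X₁.card - ε ^ 2 / 4 := by
      simp only [ρ]
      field_simp
    rw [h3]
    exact h2
  -- covering by translates
  obtain ⟨t, -, ht⟩ := isCompact_univ.elim_nhds_subcover
    (fun x : K => (fun y => x⁻¹ * y) ⁻¹' interior W₂) (fun x _ => by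
      apply (hWo.preimage (continuous_const.mul continuous_id)).mem_nhds
      simpa using mem_of_mem_nhds hWn)
  have ht2 : ∀ y : K, ∃ j ∈ t, j⁻¹ * y ∈ interior W₂ := by
    intro y
    obtain ⟨x, hx, hxy⟩ := Set.mem_iUnion₂.1 (ht (Set.mem_univ y))
    exact ⟨x, hx, hxy⟩
  obtain ⟨κ, hκ0, hκ1, hκ⟩ := exists_small.{u, v} t.card η hη
  -- the exponent m
  have hτ : 0 < 1 - Real.exp (-η) := by
    have : Real.exp (-η) < 1 := by rw [Real.exp_lt_one_iff]; linarith
    linarith
  obtain ⟨m, hm⟩ : ∃ m : ℕ, (ρ ^ (2 * κ)) ^ m < Real.exp (-(a + η)) * (1 - Real.exp (-η)) := by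
    apply exists_pow_lt_of_lt_one (by positivity)
    exact Real.rpow_lt_one hρ0.le hρ1 (by positivity)
  refine ⟨powSet X₁ m, ?_⟩
  intro F hF hT
  have hn1 : 1 ≤ F.card := Finset.card_pos.2 hF
  have hn1' : (1 : ℝ) ≤ F.card := by exact_mod_cast hn1
  have hmain := meas_bound γ F μ X₁ h1X m (interior W₂) (interior V₁) hWo hVo
    (fun v hv w hw => hWV v (interior_subset hv) w (interior_subset hw)) t ht2 ρ hρ0 hρ1.le hρ κ
  have hG : ((univ.filter fun g : F → Option t => (supp g : ℝ) ≤ κ * Fintype.card F).card : ℝ) ≤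
      Real.exp (η * F.card) := by
    calc _ ≤ Real.exp (η * Fintype.card F) := hκ F t (Fintype.card_coe t)
      _ = Real.exp (η * F.card) := by rw [Fintype.card_coe]
  set G : ℝ := ((univ.filter fun g : F → Option t =>
    (supp g : ℝ) ≤ κ * Fintype.card F).card : ℝ) with hGdef
  set v : ℝ := μ.real (bowen γ F (interior V₁)) with hv
  set T : ℝ := ((trajectory γ (powSet X₁ m) F).ncard : ℝ) with hTdef
  have hv0 : 0 ≤ v := measureReal_nonneg
  have hT0 : 0 ≤ T := by positivity
  have hr : ρ ^ (2 * m * κ * F.card) ≤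
      Real.exp (-((a + η) * F.card)) * (1 - Real.exp (-η)) := by
    have h1 : ρ ^ (2 * m * κ * F.card) = ((ρ ^ (2 * κ)) ^ m) ^ F.card := by
      rw [← Real.rpow_natCast, ← Real.rpow_natCast, ← Real.rpow_mul hρ0.le,
        ← Real.rpow_mul hρ0.le]
      congr 1
      ring
    rw [h1]
    have h2 : ((ρ ^ (2 * κ)) ^ m) ^ F.card ≤
        (Real.exp (-(a + η)) * (1 - Real.exp (-η))) ^ F.card :=
      pow_le_pow_left₀ (by positivity) hm.le _
    refine h2.trans ?_
    rw [mul_pow, ← Real.exp_nat_mul]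
    have h3 : (1 - Real.exp (-η)) ^ F.card ≤ 1 - Real.exp (-η) := by
      have h4 : 1 - Real.exp (-η) ≤ 1 := by have := Real.exp_pos (-η); linarith
      calc (1 - Real.exp (-η)) ^ F.card ≤ (1 - Real.exp (-η)) ^ 1 :=
            pow_le_pow_of_le_one hτ.le h4 hn1
        _ = _ := pow_one _
    have h5 : Real.exp ((F.card : ℝ) * -(a + η)) = Real.exp (-((a + η) * F.card)) := by
      congr 1; ring
    rw [h5]
    exact mul_le_mul_of_nonneg_left h3 (Real.exp_pos _).le
  -- T * r ≤ 1 - e^{-η}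
  have hTr : T * ρ ^ (2 * m * κ * F.card) ≤ 1 - Real.exp (-η) := by
    calc T * ρ ^ (2 * m * κ * F.card) ≤ Real.exp ((a + η) * F.card) *
          (Real.exp (-((a + η) * F.card)) * (1 - Real.exp (-η))) :=
          mul_le_mul hT hr (Real.rpow_nonneg hρ0.le _) (Real.exp_pos _).le
      _ = 1 - Real.exp (-η) := by
          rw [← mul_assoc, ← Real.exp_add, add_neg_cancel, Real.exp_zero, one_mul]
  have hTGv : Real.exp (-η) ≤ T * (G * v) := by
    rw [mul_add] at hmain
    linarith
  have hTGv2 : T * (G * v) ≤ Real.exp ((a + 2 * η) * F.card) * v := by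
    have h6 : T * G ≤ Real.exp ((a + η) * F.card) * Real.exp (η * F.card) :=
      mul_le_mul hT hG (by positivity) (Real.exp_pos _).le
    rw [← Real.exp_add] at h6
    have h7 : (a + η) * F.card + η * F.card = (a + 2 * η) * F.card := by ring
    rw [h7] at h6
    calc T * (G * v) = (T * G) * v := by ring
      _ ≤ _ := mul_le_mul_of_nonneg_right h6 hv0
  have hvpos : 0 < v := by
    by_contra hcon
    have : v = 0 := le_antisymm (not_lt.1 hcon) hv0
    rw [this] at hTGv
    simp only [mul_zero] at hTGv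
    exact absurd hTGv (not_le.2 (Real.exp_pos _))
  have hpack := packing γ F μ hLeb hVo
    (fun v hv w hw => hVW₁ v (interior_subset hv) w (interior_subset hw)) hvpos
  rw [← hv] at hpack
  have h8 : 1 ≤ Real.exp ((a + 3 * η) * F.card) * v := by
    have h9 : Real.exp (-(η * F.card)) ≤ Real.exp ((a + 2 * η) * F.card) * v := by
      refine le_trans ?_ (hTGv.trans hTGv2)
      apply Real.exp_le_exp.2
      nlinarith
    have h10 := mul_le_mul_of_nonneg_left h9 (Real.exp_pos (η * F.card)).le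
    rw [← Real.exp_add, add_neg_cancel, Real.exp_zero, ← mul_assoc, ← Real.exp_add] at h10
    have h11 : η * F.card + (a + 2 * η) * F.card = (a + 3 * η) * F.card := by ring
    rwa [h11] at h10
  exact le_of_mul_le_mul_right (hpack.trans h8) hvpos

end

end Pool.Agent.K1H25.BT
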