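import Pool.Agent.K1H25.BT.Top
import Pool.Agent.K1H25.BT.Count

set_option autoImplicit false
set_option linter.unusedSectionVars false

open Filter Topology Finset MeasureTheory
open scoped ComplexConjugate

namespace Pool.Agent.K1H25.BT

universe u v w

/-- the error of truncating the expansion of a product -/
theorem trunc_err {A : Type*} [Fintype A] [DecidableEq A] (δ : A → ℂ) (ε κ : ℝ) (hε : 0 < ε)
    (hε1 : ε ≤ 1) (hδ : ∀ a, ‖δ a‖ ≤ ε) :
    ‖∑ D ∈ (univ : Finset (Finset A)).filter (fun D => (D.card : ℝ) ≤ κ * Fintype.card A),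
        ∏ a ∈ D, δ a - ∏ a, (1 + δ a)‖ ≤ (2 * ε ^ κ) ^ Fintype.card A := by
  have h1 : ∏ a, (1 + δ a) = ∑ D : Finset A, ∏ a ∈ D, δ a := by
    rw [Finset.prod_one_add, Finset.powerset_univ]
  rw [h1, ← Finset.sum_filter_add_sum_filter_not univ
    (fun D : Finset A => (D.card : ℝ) ≤ κ * Fintype.card A), sub_add_cancel_left, norm_neg]
  refine (norm_sum_le _ _).trans ?_
  have h2 : ∀ D ∈ (univ : Finset (Finset A)).filter
      (fun D => ¬ (D.card : ℝ) ≤ κ * Fintype.card A), ‖∏ a ∈ D, δ a‖ ≤ (ε ^ κ) ^ Fintype.card A := by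
    intro D hD
    have h3 := (Finset.mem_filter.1 hD).2
    push Not at h3
    rw [norm_prod]
    calc ∏ a ∈ D, ‖δ a‖ ≤ ∏ _a ∈ D, ε :=
          Finset.prod_le_prod (fun _ _ => norm_nonneg _) fun a _ => hδ a
      _ = ε ^ D.card := by rw [Finset.prod_const]
      _ = ε ^ (D.card : ℝ) := (Real.rpow_natCast _ _).symm
      _ ≤ ε ^ (κ * Fintype.card A) := Real.rpow_le_rpow_of_exponent_ge hε hε1 h3.le
      _ = (ε ^ κ) ^ Fintype.card A := by
          rw [Real.rpow_mul hε.le, Real.rpow_natCast]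
  refine (Finset.sum_le_sum h2).trans ?_
  rw [Finset.sum_const, nsmul_eq_mul, mul_pow]
  refine mul_le_mul_of_nonneg_right ?_ (by positivity)
  have h4 : ((univ : Finset (Finset A)).filter
      (fun D => ¬ (D.card : ℝ) ≤ κ * Fintype.card A)).card ≤ 2 ^ Fintype.card A := by
    refine (Finset.card_filter_le _ _).trans ?_
    rw [Finset.card_univ, Fintype.card_finset]
  exact_mod_cast h4

section

variable {S : Type u} [Monoid S] {K : Type v} [CommGroup K] [TopologicalSpace K]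
  [IsTopologicalGroup K] [CompactSpace K] [T2Space K]

/-- The core estimate: `|T_F(X)| ≤ N(𝒰_F) e^{η |F|}`. -/
theorem core2 (γ : EndoAction S K) (X : Finset (PontryaginDual K)) (η : ℝ) (hη : 0 < η) :
    ∃ 𝒰 : Set (Set K), IsFinOpenCover 𝒰 ∧ ∀ F : Finset S, F.Nonempty →
      ((trajectory γ X F).ncard : ℝ) ≤ minCover (joinCover γ 𝒰 F) * Real.exp (η * F.card) := by
  classical
  let _ : MeasurableSpace K := borel K
  have _ : BorelSpace K := ⟨rfl⟩
  let μ : Measure K := Measure.haarMeasure ⊤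
  have _ : IsProbabilityMeasure μ := ⟨by
    have := Measure.haarMeasure_self (K₀ := (⊤ : TopologicalSpace.PositiveCompacts K))
    simpa using this⟩
  obtain ⟨κ, hκ0, hκ1, hκ⟩ := exists_small.{u, v} X.card η hη
  -- choice of ε
  obtain ⟨ε, hε0, hε1, hε⟩ : ∃ ε : ℝ, 0 < ε ∧ ε ≤ 1 ∧ (X.card : ℝ) * (2 * ε ^ κ) < 1 := by
    have h1 : Tendsto (fun ε : ℝ => (X.card : ℝ) * (2 * ε ^ κ)) (𝓝[>] 0) (𝓝 0) := by
      have h2 : Tendsto (fun ε : ℝ => (X.card : ℝ) * (2 * ε ^ κ)) (𝓝 0)
          (𝓝 ((X.card : ℝ) * (2 * (0 : ℝ) ^ κ))) := by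
        have := (Real.continuousAt_rpow_const 0 κ (Or.inr hκ0.le)).tendsto
        exact (this.const_mul 2).const_mul _
      rw [Real.zero_rpow hκ0.ne', mul_zero, mul_zero] at h2
      exact h2.mono_left nhdsWithin_le_nhds
    have h3 := h1.eventually_lt_const one_pos
    have h8 : ∀ᶠ κ : ℝ in 𝓝[>] 0, κ ∈ Set.Ioo (0 : ℝ) 1 := Ioo_mem_nhdsGT one_pos
    obtain ⟨ε, h9, h10, h11⟩ := (h3.and h8).exists
    exact ⟨ε, h10, h11.le, h9⟩
  -- the neighbourhoods
  let U : Set K := {y | ∀ χ ∈ X, ‖cc χ y - 1‖ < ε}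
  have hUo : IsOpen U := by
    have : U = ⋂ χ ∈ X, {y | ‖cc χ y - 1‖ < ε} := by ext y; simp [U]
    rw [this]
    refine isOpen_biInter_finset fun χ _ => ?_
    exact isOpen_lt ((cont_cc χ).sub continuous_const).norm continuous_const
  have hU1 : U ∈ 𝓝 (1 : K) := hUo.mem_nhds fun χ _ => by rw [cc_map_one]; simpa using hε0
  obtain ⟨V, hV1, hV⟩ := exists_nhds_split_inv hU1
  obtain ⟨t, -, ht⟩ := isCompact_univ.elim_nhds_subcover (fun x : K => (fun y => x⁻¹ * y) ⁻¹'
    interior V) (fun x _ => by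
      apply (isOpen_interior.preimage (continuous_const.mul continuous_id)).mem_nhds
      simpa using mem_interior_iff_mem_nhds.2 hV1)
  let 𝒰 : Set (Set K) := ((t.image fun x : K => (fun y => x⁻¹ * y) ⁻¹' interior V : Finset _) :
    Set (Set K))
  have h𝒰 : IsFinOpenCover 𝒰 := by
    refine ⟨Finset.finite_toSet _, ?_, ?_⟩
    · intro W hW
      obtain ⟨x, _, rfl⟩ := Finset.mem_image.1 (Finset.mem_coe.1 hW)
      exact isOpen_interior.preimage (continuous_const.mul continuous_id)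
    · rw [Set.eq_univ_iff_forall]
      intro y
      obtain ⟨x, hx, hxy⟩ := Set.mem_iUnion₂.1 (ht (Set.mem_univ y))
      exact ⟨_, Finset.mem_coe.2 (Finset.mem_image_of_mem _ hx), hxy⟩
  have hsmall : ∀ W ∈ 𝒰, ∀ x ∈ W, ∀ y ∈ W, x⁻¹ * y ∈ U := by
    intro W hW x hx y hy
    obtain ⟨z, _, rfl⟩ := Finset.mem_image.1 (Finset.mem_coe.1 hW)
    have := hV (z⁻¹ * y) (interior_subset hy) (z⁻¹ * x) (interior_subset hx)
    have h2 : z⁻¹ * y / (z⁻¹ * x) = x⁻¹ * y := by
      rw [div_eq_mul_inv, mul_inv, inv_inv]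
      rw [mul_comm z⁻¹ y, mul_assoc, inv_mul_cancel_left, mul_comm]
    rwa [h2] at this
  refine ⟨𝒰, h𝒰, ?_⟩
  intro F hF
  obtain ⟨𝒱, h𝒱1, h𝒱2, h𝒱3⟩ := exists_minCover (join_open γ h𝒰 F) (join_cover γ h𝒰 F)
  -- base points
  have hbase : ∀ W : Set K, ∃ x : K, W.Nonempty → x ∈ W := by
    intro W
    by_cases h : W.Nonempty
    · exact ⟨h.some, fun _ => h.some_mem⟩
    · exact ⟨1, fun h' => absurd h' h⟩
  choose bp hbp using hbase
  have hloc : ∀ W ∈ 𝒱, ∀ x ∈ W, ∀ s ∈ F, γ.act s ((bp W)⁻¹ * x) ∈ U := by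
    intro W hW x hx s hs
    obtain ⟨c, hc, rfl⟩ := h𝒱1 W hW
    rw [map_mul, map_inv]
    exact hsmall _ (hc s hs) _ (hbp _ ⟨x, hx⟩ s hs) _ (hx s hs)
  -- partition of unity
  obtain ⟨p, hp⟩ := PartitionOfUnity.exists_isSubordinate (X := K) isClosed_univ
    (fun W : 𝒱 => (W : Set K)) (fun W => join_open γ h𝒰 F _ (h𝒱1 _ W.2)) (by
      intro x _
      obtain ⟨W, hW, hx⟩ := h𝒱2 x
      exact Set.mem_iUnion.2 ⟨⟨W, hW⟩, hx⟩)
  have hp1 : ∀ x, ∑ W : 𝒱, p W x = 1 := by
    intro x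
    have := p.sum_eq_one (Set.mem_univ x)
    rwa [finsum_eq_sum_of_fintype] at this
  have hp2 : ∀ (W : 𝒱) x, p W x ≠ 0 → x ∈ (W : Set K) := by
    intro W x hx
    exact hp W (subset_tsupport _ hx)
  -- the characters of the trajectory
  let T : Finset (PontryaginDual K) := (traj_finite γ X F).toFinset
  have hTdef : ∀ ψ : T, ∃ c : F → X, ∀ x, cc ψ.1 x = ∏ a : F, cc (c a).1 (γ.act a.1 x) := by
    intro ψ
    obtain ⟨χ, hχ, hψ⟩ := (traj_finite γ X F).mem_toFinset.1 ψ.2
    refine ⟨fun a => ⟨χ a.1, hχ a.1 a.2⟩, fun x => ?_⟩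
    rw [hψ, cc_prod]
    simp only [cc_dual]
    exact (Finset.prod_coe_sort F (fun s => cc (χ s) (γ.act s x))).symm
  choose c hc using hTdef
  let A : Type u := F
  have hA : Fintype.card A = F.card := Fintype.card_coe F
  let dl : (F → X) → 𝒱 → K → F → ℂ := fun c W x a =>
    cc (c a).1 (γ.act a.1 ((bp W)⁻¹ * x)) - 1
  let P : T → K → ℂ := fun ψ x => ∑ W : 𝒱, (p W x : ℂ) * (cc ψ.1 (bp W) *
    ∑ D ∈ (univ : Finset (Finset F)).filter (fun D => (D.card : ℝ) ≤ κ * Fintype.card F),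
      ∏ a ∈ D, dl (c ψ) W x a)
  have hPc : ∀ ψ, Continuous (P ψ) := by
    intro ψ
    refine continuous_finsetSum _ fun W _ => ?_
    refine (Complex.continuous_ofReal.comp (p W).continuous).mul (continuous_const.mul ?_)
    refine continuous_finsetSum _ fun D _ => continuous_finsetProd _ fun a _ => ?_
    exact ((cont_cc _).comp ((map_continuous _).comp (continuous_const.mul continuous_id))).sub
      continuous_const
  have herr : ∀ (ψ : T) (x : K), ‖P ψ x - cc ψ.1 x‖ ≤ (2 * ε ^ κ) ^ F.card := by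
    intro ψ x
    have h1 : P ψ x - cc ψ.1 x = ∑ W : 𝒱, (p W x : ℂ) * ((cc ψ.1 (bp W) *
        ∑ D ∈ (univ : Finset (Finset F)).filter (fun D => (D.card : ℝ) ≤ κ * Fintype.card F),
        ∏ a ∈ D, dl (c ψ) W x a) - cc ψ.1 x) := by
      simp only [mul_sub, Finset.sum_sub_distrib, ← Finset.sum_mul]
      have : ∑ W : 𝒱, ((p W x : ℝ) : ℂ) = 1 := by
        rw [← Complex.ofReal_sum, hp1 x, Complex.ofReal_one]
      rw [this, one_mul]
    rw [h1]
    refine (norm_sum_le _ _).trans ?_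
    have h2 : ∀ W : 𝒱, ‖(p W x : ℂ) * ((cc ψ.1 (bp W) *
        ∑ D ∈ (univ : Finset (Finset F)).filter (fun D => (D.card : ℝ) ≤ κ * Fintype.card F),
        ∏ a ∈ D, dl (c ψ) W x a) - cc ψ.1 x)‖ ≤ p W x * (2 * ε ^ κ) ^ F.card := by
      intro W
      rw [norm_mul, Complex.norm_real, Real.norm_of_nonneg (p.nonneg W x)]
      by_cases h0 : p W x = 0
      · rw [h0, zero_mul, zero_mul]
      refine mul_le_mul_of_nonneg_left ?_ (p.nonneg W x)
      have hx := hp2 W x h0
      have h3 : cc ψ.1 x = cc ψ.1 (bp W) * ∏ a : F, (1 + dl (c ψ) W x a) := by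
        have h4 : x = bp W * ((bp W)⁻¹ * x) := by rw [mul_inv_cancel_left]
        conv_lhs => rw [h4]
        rw [cc_map_mul, hc ψ ((bp W)⁻¹ * x)]
        have h5 : ∀ a : F, 1 + dl (c ψ) W x a = cc (c ψ a).1 (γ.act a.1 ((bp W)⁻¹ * x)) :=
          fun a => by simp [dl]
        simp only [h5]
      rw [h3, ← mul_sub, norm_mul, norm_cc, one_mul, ← hA]
      refine trunc_err _ ε κ hε0 hε1 fun a => ?_
      exact (hloc W W.2 x hx a.1 a.2 _ (c ψ a).2).le
    refine (Finset.sum_le_sum fun W _ => h2 W).trans ?_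
    rw [← Finset.sum_mul, hp1 x, one_mul]
  have hTcard : (T.card : ℝ) ≤ (X.card : ℝ) ^ F.card := by
    have h1 : T.card = (trajectory γ X F).ncard :=
      (Set.ncard_eq_toFinset_card _ (traj_finite γ X F)).symm
    rw [h1]
    exact_mod_cast traj_ncard_le γ X F
  have hlt : (T.card : ℝ) * (2 * ε ^ κ) ^ F.card < 1 := by
    have hpos : (0 : ℝ) ≤ (2 * ε ^ κ) ^ F.card := by positivity
    refine (mul_le_mul_of_nonneg_right hTcard hpos).trans_lt ?_
    rw [← mul_pow]
    exact pow_lt_one₀ (by positivity) hε (Finset.card_pos.2 hF).ne'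
  have hlin := linInd μ T P hPc _ herr hlt
  -- the spanning set
  let G : Finset (F → Option X) :=
    univ.filter fun g => (supp g : ℝ) ≤ κ * Fintype.card F
  let b : 𝒱 × G → K → ℂ := fun i x => (p i.1 x : ℂ) *
    ∏ a : F, (match i.2.1 a with
      | none => 1
      | some χ => cc χ.1 (γ.act a.1 ((bp i.1)⁻¹ * x)) - 1)
  have hspan : Set.range P ≤ (Submodule.span ℂ (Set.range b) : Set (K → ℂ)) := by
    rintro _ ⟨ψ, rfl⟩
    have h1 : P ψ = ∑ W : 𝒱, ∑ D ∈ (univ : Finset (Finset F)).filter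
        (fun D => (D.card : ℝ) ≤ κ * Fintype.card F), (cc ψ.1 (bp W)) •
        (fun x => (p W x : ℂ) * ∏ a ∈ D, dl (c ψ) W x a) := by
      funext x
      simp only [P, Finset.sum_apply, Pi.smul_apply, smul_eq_mul, Finset.mul_sum]
      refine Finset.sum_congr rfl fun W _ => Finset.sum_congr rfl fun D _ => ?_
      ring
    rw [h1]
    refine Submodule.sum_mem _ fun W _ => Submodule.sum_mem _ fun D hD => Submodule.smul_mem _ _ ?_
    have hD2 := (Finset.mem_filter.1 hD).2
    let g : F → Option X := fun a => if a ∈ D then some (c ψ a) else none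
    have hg : g ∈ G := by
      refine Finset.mem_filter.2 ⟨Finset.mem_univ _, ?_⟩
      have : supp g = D.card := by
        unfold supp
        congr 1
        ext a
        by_cases ha : a ∈ D <;> simp [g, ha]
      rw [this]
      exact hD2
    apply Submodule.subset_span
    refine ⟨(W, ⟨g, hg⟩), ?_⟩
    funext x
    simp only [b]
    congr 1
    rw [← Finset.prod_filter_mul_prod_filter_not univ (fun a => a ∈ D)]
    have h2 : ∏ a ∈ univ.filter (fun a : F => ¬ a ∈ D), (match g a with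
        | none => (1 : ℂ)
        | some χ => cc χ.1 (γ.act a.1 ((bp W)⁻¹ * x)) - 1) = 1 := by
      refine Finset.prod_eq_one fun a ha => ?_
      have ha' := (Finset.mem_filter.1 ha).2
      simp [g, ha']
    rw [h2, mul_one]
    have h3 : univ.filter (fun a : F => a ∈ D) = D := by ext a; simp
    rw [h3]
    refine Finset.prod_congr rfl fun a ha => ?_
    simp [g, ha, dl]
  have hfin : (Set.range b).Finite := Set.finite_range b
  let _ : Fintype (Set.range b) := hfin.fintype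
  have hle := linearIndependent_le_span' P hlin (Set.range b) hspan
  have hle2 : T.card ≤ 𝒱.card * G.card := by
    rw [Cardinal.mk_fintype, Fintype.card_coe] at hle
    have h1 : T.card ≤ Fintype.card (Set.range b) := by exact_mod_cast hle
    refine h1.trans ((Fintype.card_range_le b).trans ?_)
    rw [Fintype.card_prod, Fintype.card_coe, Fintype.card_coe]
  have hG : (G.card : ℝ) ≤ Real.exp (η * F.card) := by
    calc (G.card : ℝ) ≤ Real.exp (η * Fintype.card F) := hκ F X (Fintype.card_coe X)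
      _ = Real.exp (η * F.card) := by rw [Fintype.card_coe]
  have h1 : (trajectory γ X F).ncard = T.card :=
    Set.ncard_eq_toFinset_card _ (traj_finite γ X F)
  rw [h1, ← h𝒱3]
  calc (T.card : ℝ) ≤ (𝒱.card * G.card : ℕ) := by exact_mod_cast hle2
    _ = 𝒱.card * (G.card : ℝ) := by push_cast; ring
    _ ≤ _ := mul_le_mul_of_nonneg_left hG (by positivity)

end

end Pool.Agent.K1H25.BT
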