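import Pool.Agent.K1H25.BT.Dir1d
import Pool.Agent.K1H25.BT.Dir2

set_option autoImplicit false
set_option linter.unusedSectionVars false

open Filter Topology Finset

namespace Pool.Agent.K1H25.BT

universe u v w

variable {S : Type u} [Monoid S] {K : Type v} [CommGroup K] [TopologicalSpace K]
  [IsTopologicalGroup K] [CompactSpace K] [T2Space K]

theorem rate2 (γ : EndoAction S K) (X : Finset (PontryaginDual K)) (η : ℝ) (hη : 0 < η) :
    ∃ 𝒰 : Set (Set K), IsFinOpenCover 𝒰 ∧ ∀ F : Finset S, F.Nonempty →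
      algRate γ X F ≤ topRate γ 𝒰 F + η := by
  obtain ⟨𝒰, h1, h2⟩ := core2 γ X η hη
  refine ⟨𝒰, h1, fun F hF => ?_⟩
  have hn : (0 : ℝ) < F.card := by exact_mod_cast Finset.card_pos.2 hF
  have h3 := h2 F hF
  unfold algRate topRate
  rw [div_add' _ _ _ hn.ne', div_le_div_iff_of_pos_right hn]
  rcases Nat.eq_zero_or_pos (trajectory γ X F).ncard with h0 | h0
  · rw [h0, Nat.cast_zero, Real.log_zero]
    have : 0 ≤ Real.log (minCover (joinCover γ 𝒰 F)) := Real.log_natCast_nonneg _
    positivity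
  · have h0' : (0 : ℝ) < (trajectory γ X F).ncard := by exact_mod_cast h0
    have h4 : (0 : ℝ) < minCover (joinCover γ 𝒰 F) := by
      by_contra hcon
      have h5 : (minCover (joinCover γ 𝒰 F) : ℝ) = 0 :=
        le_antisymm (not_lt.1 hcon) (Nat.cast_nonneg _)
      rw [h5, zero_mul] at h3
      linarith
    have h6 := Real.log_le_log h0' h3
    rw [Real.log_mul h4.ne' (Real.exp_pos _).ne', Real.log_exp] at h6
    exact h6

theorem rate1 (γ : EndoAction S K) {𝒰 : Set (Set K)} (h𝒰 : IsFinOpenCover 𝒰) (a η : ℝ)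
    (ha : 0 ≤ a) (hη : 0 < η) :
    ∃ X : Finset (PontryaginDual K), X.Nonempty ∧ ∀ F : Finset S, F.Nonempty →
      algRate γ X F ≤ a + η → topRate γ 𝒰 F ≤ a + 3 * η := by
  classical
  obtain ⟨X, hX⟩ := core1 γ h𝒰 a η ha hη
  have key : ∀ F : Finset S, F.Nonempty →
      ((trajectory γ X F).ncard : ℝ) ≤ Real.exp ((a + η) * F.card) →
      topRate γ 𝒰 F ≤ a + 3 * η := by
    intro F hF h
    have hn : (0 : ℝ) < F.card := by exact_mod_cast Finset.card_pos.2 hF
    have h2 := hX F hF h
    unfold topRate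
    rw [div_le_iff₀ hn]
    rcases Nat.eq_zero_or_pos (minCover (joinCover γ 𝒰 F)) with h0 | h0
    · rw [h0, Nat.cast_zero, Real.log_zero]
      positivity
    · have h0' : (0 : ℝ) < minCover (joinCover γ 𝒰 F) := by exact_mod_cast h0
      have h3 := Real.log_le_log h0' h2
      rwa [Real.log_exp] at h3
  have mono : ∀ (X' : Finset (PontryaginDual K)) (F : Finset S), X ⊆ X' → F.Nonempty →
      algRate γ X' F ≤ a + η → ((trajectory γ X F).ncard : ℝ) ≤ Real.exp ((a + η) * F.card) := by
    intro X' F hXX' hF h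
    have hn : (0 : ℝ) < F.card := by exact_mod_cast Finset.card_pos.2 hF
    have h1 : (trajectory γ X F).ncard ≤ (trajectory γ X' F).ncard := by
      apply Set.ncard_le_ncard _ (traj_finite γ X' F)
      rintro ψ ⟨χ, hχ, rfl⟩
      exact ⟨χ, fun s hs => hXX' (hχ s hs), rfl⟩
    have h2 : ((trajectory γ X F).ncard : ℝ) ≤ (trajectory γ X' F).ncard := by exact_mod_cast h1
    refine h2.trans ?_
    unfold algRate at h
    rw [div_le_iff₀ hn] at h
    rcases Nat.eq_zero_or_pos (trajectory γ X' F).ncard with h0 | h0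
    · rw [h0, Nat.cast_zero]
      exact (Real.exp_pos _).le
    · have h0' : (0 : ℝ) < (trajectory γ X' F).ncard := by exact_mod_cast h0
      rw [← Real.log_le_iff_le_exp h0']
      exact h
  refine ⟨insert 1 X, Finset.insert_nonempty _ _, fun F hF h => key F hF (mono _ F ?_ hF h)⟩
  exact Finset.subset_insert _ _

theorem topRate_nonneg (γ : EndoAction S K) (𝒰 : Set (Set K)) (F : Finset S) :
    0 ≤ topRate γ 𝒰 F := div_nonneg (Real.log_natCast_nonneg _) (Nat.cast_nonneg _)

theorem algRate_nonneg (γ : EndoAction S K) (X : Finset (PontryaginDual K)) (F : Finset S) :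
    0 ≤ algRate γ X F := div_nonneg (Real.log_natCast_nonneg _) (Nat.cast_nonneg _)

theorem ereal_le_of_forall {x y : EReal} (hy : 0 ≤ y)
    (h : ∀ η : ℝ, 0 < η → ∀ a : ℝ, 0 ≤ a → y ≤ a → x ≤ ((a + η : ℝ) : EReal)) : x ≤ y := by
  induction y with
  | bot => exact absurd hy (by simp)
  | top => exact le_top
  | coe r =>
    have hr : 0 ≤ r := by exact_mod_cast hy
    apply EReal.le_of_forall_lt_iff_le.1
    intro z hz
    have hz' : r < z := by exact_mod_cast hz
    have := h (z - r) (by linarith) r hr le_rfl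
    simpa using this

section

variable {I : Type w} (l : Filter I) [l.NeBot] (F : I → Finset S) (hF : ∀ i, (F i).Nonempty)
include hF

theorem limsup_eq (γ : EndoAction S K) :
    (⨆ 𝒰 : {𝒰 : Set (Set K) // IsFinOpenCover 𝒰},
      limsup (fun i => (topRate γ 𝒰.1 (F i) : EReal)) l) =
    ⨆ X : {X : Finset (PontryaginDual K) // X.Nonempty},
      limsup (fun i => (algRate γ X.1 (F i) : EReal)) l := by
  apply le_antisymm
  · refine iSup_le fun 𝒰 => ?_
    apply ereal_le_of_forall
    · refine le_iSup_of_le ⟨{1}, Finset.singleton_nonempty _⟩ ?_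
      refine le_limsup_of_frequently_le (Frequently.of_forall fun i => ?_) (by isBoundedDefault)
      exact_mod_cast algRate_nonneg γ _ _
    · intro η hη a ha hle
      obtain ⟨X, hXne, hX⟩ := rate1 γ 𝒰.2 a (η / 3) ha (by positivity)
      have h1 : limsup (fun i => (algRate γ X (F i) : EReal)) l ≤ a :=
        (le_iSup (fun X : {X : Finset (PontryaginDual K) // X.Nonempty} =>
          limsup (fun i => (algRate γ X.1 (F i) : EReal)) l) ⟨X, hXne⟩).trans hle
      have h2 : limsup (fun i => (algRate γ X (F i) : EReal)) l < ((a + η / 3 : ℝ) : EReal) :=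
        lt_of_le_of_lt h1 (by exact_mod_cast (by linarith : a < a + η / 3))
      have h3 := eventually_lt_of_limsup_lt h2 (by isBoundedDefault)
      refine limsup_le_of_le (by isBoundedDefault) (h3.mono fun i hi => ?_)
      have h4 : algRate γ X (F i) ≤ a + η / 3 := by exact_mod_cast hi.le
      have h5 := hX (F i) (hF i) h4
      have h6 : topRate γ 𝒰.1 (F i) ≤ a + η := by linarith
      exact_mod_cast h6
  · refine iSup_le fun X => ?_
    apply ereal_le_of_forall
    · obtain ⟨𝒰, h𝒰, _⟩ := rate2 γ ({1} : Finset (PontryaginDual K)) 1 one_pos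
      refine le_iSup_of_le ⟨𝒰, h𝒰⟩ ?_
      refine le_limsup_of_frequently_le (Frequently.of_forall fun i => ?_) (by isBoundedDefault)
      exact_mod_cast topRate_nonneg γ _ _
    · intro η hη a ha hle
      obtain ⟨𝒰, h𝒰, h𝒰2⟩ := rate2 γ X.1 (η / 2) (by positivity)
      have h1 : limsup (fun i => (topRate γ 𝒰 (F i) : EReal)) l ≤ a :=
        (le_iSup (fun 𝒰 : {𝒰 : Set (Set K) // IsFinOpenCover 𝒰} =>
          limsup (fun i => (topRate γ 𝒰.1 (F i) : EReal)) l) ⟨𝒰, h𝒰⟩).trans hle
      have h2 : limsup (fun i => (topRate γ 𝒰 (F i) : EReal)) l < ((a + η / 2 : ℝ) : EReal) :=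
        lt_of_le_of_lt h1 (by exact_mod_cast (by linarith : a < a + η / 2))
      have h3 := eventually_lt_of_limsup_lt h2 (by isBoundedDefault)
      refine limsup_le_of_le (by isBoundedDefault) (h3.mono fun i hi => ?_)
      have h4 : topRate γ 𝒰 (F i) < a + η / 2 := by exact_mod_cast hi
      have h5 := h𝒰2 (F i) (hF i)
      have h6 : algRate γ X.1 (F i) ≤ a + η := by linarith
      exact_mod_cast h6

theorem liminf_eq (γ : EndoAction S K) :
    (⨆ 𝒰 : {𝒰 : Set (Set K) // IsFinOpenCover 𝒰},
      liminf (fun i => (topRate γ 𝒰.1 (F i) : EReal)) l) =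
    ⨆ X : {X : Finset (PontryaginDual K) // X.Nonempty},
      liminf (fun i => (algRate γ X.1 (F i) : EReal)) l := by
  apply le_antisymm
  · refine iSup_le fun 𝒰 => ?_
    apply ereal_le_of_forall
    · refine le_iSup_of_le ⟨{1}, Finset.singleton_nonempty _⟩ ?_
      refine le_liminf_of_le (by isBoundedDefault) (Eventually.of_forall fun i => ?_)
      exact_mod_cast algRate_nonneg γ _ _
    · intro η hη a ha hle
      obtain ⟨X, hXne, hX⟩ := rate1 γ 𝒰.2 a (η / 3) ha (by positivity)
      have h1 : liminf (fun i => (algRate γ X (F i) : EReal)) l ≤ a :=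
        (le_iSup (fun X : {X : Finset (PontryaginDual K) // X.Nonempty} =>
          liminf (fun i => (algRate γ X.1 (F i) : EReal)) l) ⟨X, hXne⟩).trans hle
      have h2 : liminf (fun i => (algRate γ X (F i) : EReal)) l < ((a + η / 3 : ℝ) : EReal) :=
        lt_of_le_of_lt h1 (by exact_mod_cast (by linarith : a < a + η / 3))
      have h3 := frequently_lt_of_liminf_lt (by isBoundedDefault) h2
      refine liminf_le_of_frequently_le (h3.mono fun i hi => ?_) (by isBoundedDefault)
      have h4 : algRate γ X (F i) ≤ a + η / 3 := by exact_mod_cast hi.le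
      have h5 := hX (F i) (hF i) h4
      have h6 : topRate γ 𝒰.1 (F i) ≤ a + η := by linarith
      exact_mod_cast h6
  · refine iSup_le fun X => ?_
    apply ereal_le_of_forall
    · obtain ⟨𝒰, h𝒰, _⟩ := rate2 γ ({1} : Finset (PontryaginDual K)) 1 one_pos
      refine le_iSup_of_le ⟨𝒰, h𝒰⟩ ?_
      refine le_liminf_of_le (by isBoundedDefault) (Eventually.of_forall fun i => ?_)
      exact_mod_cast topRate_nonneg γ _ _
    · intro η hη a ha hle
      obtain ⟨𝒰, h𝒰, h𝒰2⟩ := rate2 γ X.1 (η / 2) (by positivity)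
      have h1 : liminf (fun i => (topRate γ 𝒰 (F i) : EReal)) l ≤ a :=
        (le_iSup (fun 𝒰 : {𝒰 : Set (Set K) // IsFinOpenCover 𝒰} =>
          liminf (fun i => (topRate γ 𝒰.1 (F i) : EReal)) l) ⟨𝒰, h𝒰⟩).trans hle
      have h2 : liminf (fun i => (topRate γ 𝒰 (F i) : EReal)) l < ((a + η / 2 : ℝ) : EReal) :=
        lt_of_le_of_lt h1 (by exact_mod_cast (by linarith : a < a + η / 2))
      have h3 := frequently_lt_of_liminf_lt (by isBoundedDefault) h2
      refine liminf_le_of_frequently_le (h3.mono fun i hi => ?_) (by isBoundedDefault)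
      have h4 : topRate γ 𝒰 (F i) < a + η / 2 := by exact_mod_cast hi
      have h5 := h𝒰2 (F i) (hF i)
      have h6 : algRate γ X.1 (F i) ≤ a + η := by linarith
      exact_mod_cast h6

end

end Pool.Agent.K1H25.BT
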