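import Pool.Agent.K1H25.BT.Defs
import Pool.Agent.K1H25.BT.Char

set_option autoImplicit false
set_option linter.unusedSectionVars false

open Filter Topology Finset
open scoped ComplexConjugate

namespace Pool.Agent.K1H25.BT

universe u v w

section cover

variable {K : Type v} [TopologicalSpace K] [CompactSpace K]

theorem exists_fin_subcover {𝒰 : Set (Set K)} (ho : ∀ U ∈ 𝒰, IsOpen U)
    (hc : ∀ x : K, ∃ U ∈ 𝒰, x ∈ U) :
    ∃ 𝒱 : Finset (Set K), (∀ V ∈ 𝒱, V ∈ 𝒰) ∧ (∀ x : K, ∃ V ∈ 𝒱, x ∈ V) := by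
  classical
  have h1 : (Set.univ : Set K) ⊆ ⋃ U : 𝒰, (U : Set K) := by
    intro x _
    obtain ⟨U, hU, hx⟩ := hc x
    exact Set.mem_iUnion.2 ⟨⟨U, hU⟩, hx⟩
  obtain ⟨t, ht⟩ := isCompact_univ.elim_finite_subcover (fun U : 𝒰 => (U : Set K))
    (fun U => ho U U.2) h1
  refine ⟨t.image Subtype.val, ?_, ?_⟩
  · intro V hV
    obtain ⟨U, _, rfl⟩ := Finset.mem_image.1 hV
    exact U.2
  · intro x
    obtain ⟨U, hU, hx⟩ := Set.mem_iUnion₂.1 (ht (Set.mem_univ x))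
    exact ⟨U, Finset.mem_image_of_mem _ hU, hx⟩

theorem exists_minCover {𝒰 : Set (Set K)} (ho : ∀ U ∈ 𝒰, IsOpen U)
    (hc : ∀ x : K, ∃ U ∈ 𝒰, x ∈ U) :
    ∃ 𝒱 : Finset (Set K), (∀ V ∈ 𝒱, V ∈ 𝒰) ∧ (∀ x : K, ∃ V ∈ 𝒱, x ∈ V) ∧
      𝒱.card = minCover 𝒰 := by
  have hne : {n | ∃ 𝒱 : Finset (Set K), (∀ V ∈ 𝒱, V ∈ 𝒰) ∧ (∀ x : K, ∃ V ∈ 𝒱, x ∈ V) ∧
      𝒱.card = n}.Nonempty := by
    obtain ⟨𝒱, h1, h2⟩ := exists_fin_subcover ho hc
    exact ⟨_, 𝒱, h1, h2, rfl⟩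
  exact Nat.sInf_mem hne

theorem minCover_le {𝒰 : Set (Set K)} (𝒱 : Finset (Set K)) (h1 : ∀ V ∈ 𝒱, V ∈ 𝒰)
    (h2 : ∀ x : K, ∃ V ∈ 𝒱, x ∈ V) : minCover 𝒰 ≤ 𝒱.card :=
  Nat.sInf_le ⟨𝒱, h1, h2, rfl⟩

end cover

section join

variable {S : Type u} [Monoid S] {K : Type v} [CommGroup K] [TopologicalSpace K]

theorem join_open (γ : EndoAction S K) {𝒰 : Set (Set K)} (h : IsFinOpenCover 𝒰) (F : Finset S) :
    ∀ V ∈ joinCover γ 𝒰 F, IsOpen V := by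
  rintro V ⟨U, hU, rfl⟩
  have : {x | ∀ s ∈ F, γ.act s x ∈ U s} = ⋂ s ∈ F, (γ.act s) ⁻¹' (U s) := by
    ext x; simp
  rw [this]
  exact isOpen_biInter_finset fun s hs => (h.isOpen _ (hU s hs)).preimage (map_continuous _)

theorem join_cover (γ : EndoAction S K) {𝒰 : Set (Set K)} (h : IsFinOpenCover 𝒰) (F : Finset S)
    (x : K) : ∃ V ∈ joinCover γ 𝒰 F, x ∈ V := by
  have h1 : ∀ y : K, ∃ U ∈ 𝒰, y ∈ U := by
    intro y
    have : y ∈ ⋃₀ 𝒰 := by rw [h.cover]; exact Set.mem_univ y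
    exact this
  choose U hU hx using h1
  exact ⟨_, ⟨fun s => U (γ.act s x), fun s _ => hU _, rfl⟩, fun s _ => hx _⟩

theorem cc_dual (γ : EndoAction S K) (χ : PontryaginDual K) (s : S) (x : K) :
    cc (dualAct γ χ s) x = cc χ (γ.act s x) := rfl

theorem traj_finite (γ : EndoAction S K) (X : Finset (PontryaginDual K)) (F : Finset S) :
    (trajectory γ X F).Finite := by
  classical
  have h : trajectory γ X F ⊆ Set.range
      (fun c : F → X => ∏ a : F, dualAct γ (c a).1 a.1) := by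
    rintro ψ ⟨χ, hχ, rfl⟩
    refine ⟨fun a => ⟨χ a.1, hχ a.1 a.2⟩, ?_⟩
    exact Finset.prod_coe_sort F (fun s => dualAct γ (χ s) s)
  exact (Set.finite_range _).subset h

theorem traj_ncard_le (γ : EndoAction S K) (X : Finset (PontryaginDual K)) (F : Finset S) :
    (trajectory γ X F).ncard ≤ X.card ^ F.card := by
  classical
  have h : trajectory γ X F ⊆ Set.range
      (fun c : F → X => ∏ a : F, dualAct γ (c a).1 a.1) := by
    rintro ψ ⟨χ, hχ, rfl⟩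
    refine ⟨fun a => ⟨χ a.1, hχ a.1 a.2⟩, ?_⟩
    exact Finset.prod_coe_sort F (fun s => dualAct γ (χ s) s)
  refine (Set.ncard_le_ncard h (Set.finite_range _)).trans ?_
  rw [← Set.image_univ]
  refine (Set.ncard_image_le Set.finite_univ).trans ?_
  rw [Set.ncard_univ, Nat.card_eq_fintype_card]
  simp

end join

end Pool.Agent.K1H25.BT
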